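import Pool.Agent.U33.FM.Formula
import Pool.Agent.U33.AS.Blocks

/-!
# Sharpness: products of quadratic examples
-/

set_option autoImplicit false
set_option linter.unusedSectionVars false

namespace Pool.Agent.U33.FM

open Finset
open Pool.Agent.U33.TS (rep finite_multisets)
open Pool.Agent.U33.AS

/-- counting representations by tuples -/
lemma rep_le_tuples {D β : Type} [Finite β] [Nonempty D] (F : D → ℕ) (h x : ℕ)
    (Φ : (Fin h → D) → β)
    (hΦ : ∀ u u' : Fin h → D, ∑ k, F (u k) = x → ∑ k, F (u' k) = x → Φ u = Φ u' →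
      ∀ k, F (u k) = F (u' k)) : rep (Set.range F) h x ≤ Nat.card β := by
  classical
  unfold rep
  obtain ⟨S, hS⟩ : ∃ S, S = {s : Multiset ℕ | Multiset.card s = h ∧ (∀ a ∈ s, a ∈ Set.range F) ∧
    s.sum = x} := ⟨_, rfl⟩
  rw [← hS]
  have htup : ∀ s : Multiset ℕ, ∃ u : Fin h → D, s ∈ S →
      (s = Multiset.ofList (List.ofFn fun k => F (u k)) ∧ ∑ k, F (u k) = x) := by
    intro s
    by_cases hs : s ∈ S
    · rw [hS] at hs
      obtain ⟨h1, h2, h3⟩ := hs
      have hlen : s.toList.length = h := by rw [Multiset.length_toList, h1]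
      have h4 : ∀ k : Fin h, ∃ U : D, F U = s.toList.get (Fin.cast hlen.symm k) := by
        intro k
        exact h2 _ (by rw [← Multiset.mem_toList]; exact List.get_mem _ _)
      choose u hu using h4
      have h5 : List.ofFn (fun k => F (u k)) = s.toList := by
        have e : (fun k => F (u k)) = fun k => s.toList.get (Fin.cast hlen.symm k) :=
          funext hu
        rw [e]
        apply List.ext_get
        · rw [List.length_ofFn, hlen]
        · intro n h6 h7
          simp
      refine ⟨u, fun _ => ⟨?_, ?_⟩⟩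
      · rw [h5, Multiset.coe_toList]
      · rw [← List.sum_ofFn, h5, Multiset.sum_toList, h3]
    · exact ⟨fun _ => Classical.arbitrary D, fun h => absurd h hs⟩
  choose u hu using htup
  have hinj : Set.InjOn (fun s => Φ (u s)) S := by
    intro s hs s' hs' he
    have h1 := hΦ (u s) (u s') (hu s hs).2 (hu s' hs').2 he
    rw [(hu s hs).1, (hu s' hs').1]
    congr 2
    funext k
    exact h1 k
  calc S.ncard = ((fun s => Φ (u s)) '' S).ncard := hinj.ncard_image.symm
    _ ≤ (Set.univ : Set β).ncard := Set.ncard_le_ncard (Set.subset_univ _) (Set.toFinite _)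
    _ = Nat.card β := Set.ncard_univ β

/-- ordered version of `rep_quadSet` -/
lemma tuples {q h : ℕ} (hq : h < q) (v : ℕ) :
    ∃ Θ : (Fin h → Finset ℕ) → (Finset (Fin h) → Finset (Fin h)),
      ∀ u u' : Fin h → Finset ℕ, ∑ k, quad q (u k) = v → ∑ k, quad q (u' k) = v → Θ u = Θ u' →
        u = u' := by
  classical
  by_cases h0 : ∃ u0 : Fin h → Finset ℕ, ∑ k, quad q (u0 k) = v
  · obtain ⟨u0, hu0⟩ := h0
    have hθ : ∀ u : Fin h → Finset ℕ, ∃ θ : Finset (Fin h) → Finset (Fin h),
        ∑ k, quad q (u k) = v → ∀ i, typ u i = θ (typ u0 i) := by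
      intro u
      by_cases hs : ∑ k, quad q (u k) = v
      · have h1 := sums_digits hq u u0 (by rw [hs, hu0])
        have h2 : ∀ i j, typ u0 i = typ u0 j → typ u i = typ u j := by
          intro i j hij
          apply eq_of_card
          · rw [typ_card, typ_card, h1, h1, ← typ_card, ← typ_card, hij]
          · rw [typ_card, typ_card, h1, h1, ← typ_card, ← typ_card, hij]
        refine ⟨fun τ => if hτ : ∃ i, typ u0 i = τ then typ u hτ.choose else ∅,
          fun _ i => ?_⟩
        have h3 : ∃ j, typ u0 j = typ u0 i := ⟨i, rfl⟩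
        show typ u i = if hτ : ∃ j, typ u0 j = typ u0 i then typ u hτ.choose else ∅
        rw [dif_pos h3]
        exact h2 _ _ h3.choose_spec.symm
      · exact ⟨fun _ => ∅, fun h => absurd h hs⟩
    choose θ hθ using hθ
    refine ⟨θ, fun u u' hu hu' he => ?_⟩
    funext k
    ext i
    have h2 : typ u i = typ u' i := by
      rw [hθ u hu, hθ u' hu', he]
    have h3 : k ∈ typ u i ↔ k ∈ typ u' i := by rw [h2]
    unfold typ at h3
    simpa using h3
  · push Not at h0
    exact ⟨fun _ _ => ∅, fun u _ hu _ _ => absurd hu (h0 u)⟩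

/-- the monomials of `quad` -/
lemma quad_supp {q m : ℕ} (x : Fin m → Bool) :
    (quad q (supp x) : ℤ) = ∑ p : Fin m × Fin m, ((q ^ Nat.pair p.1 p.2 : ℕ) : ℤ) *
        (((x p.1 && x p.2).toNat : ℕ) : ℤ) := by
  unfold quad supp
  push_cast
  rw [sum_product, sum_map, Fintype.sum_prod_type, sum_filter]
  refine sum_congr rfl fun i _ => ?_
  rw [sum_map, sum_filter]
  by_cases hi : x i = true
  · rw [if_pos hi]
    refine sum_congr rfl fun j _ => ?_
    by_cases hj : x j = true
    · simp [hi, hj]
    · simp [hi, hj]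
  · rw [if_neg hi]
    symm
    apply sum_eq_zero
    intro j _
    simp [hi]

/-- **Blocks of `k` bits.** -/
theorem sharp_blocks (h m k : ℕ) (hk : 1 ≤ k) (hkm : k ≤ m) : ∃ F : (Fin m → Bool) → ℕ,
    Function.Injective F ∧ Formulas m (4 * m * k : ℕ) F ∧
      ∀ x, rep (Set.range F) h x ≤ 2 ^ (h * 2 ^ h * ((m + k - 1) / k)) := by
  classical
  obtain ⟨M, hM⟩ : ∃ M, M = (m + k - 1) / k := ⟨_, rfl⟩
  have hM1 : M * k ≤ m + k - 1 := by
    rw [hM]
    exact Nat.div_mul_le_self _ _
  have hM2 : m ≤ M * k := by
    have h1 : m + k - 1 < k * (M + 1) := by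
      rw [hM]
      exact Nat.lt_mul_div_succ _ (by omega)
    have h2 : k * (M + 1) = M * k + k := by ring
    omega
  rw [← hM]
  obtain ⟨W, hW⟩ : ∃ W, W = (h + 2) ^ (k ^ 2 + 1) := ⟨_, rfl⟩
  have hWpos : 0 < W := by rw [hW]; positivity
  have hquad : ∀ z : Fin k → Bool, quad (h + 2) (supp z) < (h + 2) ^ k ^ 2 :=
    fun z => quad_lt (by omega) _ _ (supp_lt z)
  have hsum : ∀ z : Fin h → Fin k → Bool, ∑ j, quad (h + 2) (supp (z j)) < W := by
    intro z
    have h1 : ∑ j, quad (h + 2) (supp (z j)) ≤ ∑ _j : Fin h, (h + 2) ^ k ^ 2 :=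
      sum_le_sum fun j _ => (hquad (z j)).le
    rw [sum_const, card_univ, Fintype.card_fin, smul_eq_mul] at h1
    have h2 : 0 < (h + 2) ^ k ^ 2 := by positivity
    rw [hW, pow_succ]
    nlinarith
  obtain ⟨G, hG⟩ : ∃ G : (Fin (M * k) → Bool) → ℕ,
      G = fun y => ∑ i : Fin M, quad (h + 2) (supp (block y i)) * W ^ (i : ℕ) := ⟨_, rfl⟩
  -- the digits of sums
  have key : ∀ y y' : Fin h → Fin (M * k) → Bool, ∑ j, G (y j) = ∑ j, G (y' j) → ∀ i,
      ∑ j, quad (h + 2) (supp (block (y j) i)) = ∑ j, quad (h + 2) (supp (block (y' j) i)) := by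
    intro y y' he i
    have h1 : ∀ v : Fin h → Fin (M * k) → Bool, ∑ j, G (v j) = ∑ n ∈ range M,
        (if hn : n < M then ∑ j, quad (h + 2) (supp (block (v j) ⟨n, hn⟩)) else 0) * W ^ n := by
      intro v
      rw [hG, ← Fin.sum_univ_eq_sum_range (fun n => (if hn : n < M then
        ∑ j, quad (h + 2) (supp (block (v j) ⟨n, hn⟩)) else 0) * W ^ n), sum_comm]
      refine sum_congr rfl fun i _ => ?_
      rw [dif_pos i.2, sum_mul]
    rw [h1, h1] at he
    have h2 : ∀ (v : Fin h → Fin (M * k) → Bool) (n : ℕ),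
        (if hn : n < M then ∑ j, quad (h + 2) (supp (block (v j) ⟨n, hn⟩)) else 0) < W := by
      intro v n
      split_ifs with hn
      · exact hsum _
      · exact hWpos
    have h3 := digits_inj _ _ (h2 y) (h2 y') _ he i i.2
    rw [dif_pos i.2, dif_pos i.2] at h3
    exact h3
  have hGinj : Function.Injective G := by
    intro y y' he
    apply block_ext
    intro i
    have h1 : ∀ v : Fin (M * k) → Bool, G v = ∑ n ∈ range M,
        (if hn : n < M then quad (h + 2) (supp (block v ⟨n, hn⟩)) else 0) * W ^ n := by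
      intro v
      rw [hG, ← Fin.sum_univ_eq_sum_range (fun n => (if hn : n < M then
        quad (h + 2) (supp (block v ⟨n, hn⟩)) else 0) * W ^ n)]
      refine sum_congr rfl fun i _ => ?_
      rw [dif_pos i.2]
    rw [h1, h1] at he
    have h2 : ∀ (v : Fin (M * k) → Bool) (n : ℕ),
        (if hn : n < M then quad (h + 2) (supp (block v ⟨n, hn⟩)) else 0) < W := by
      intro v n
      split_ifs with hn
      · refine (hquad _).trans_le ?_
        rw [hW]
        exact Nat.pow_le_pow_right (by omega) (by omega)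
      · exact hWpos
    have h3 := digits_inj _ _ (h2 y) (h2 y') _ he i i.2
    rw [dif_pos i.2, dif_pos i.2] at h3
    exact supp_injective (quad_injective (by omega) h3)
  obtain ⟨ext, hext⟩ : ∃ ext : (Fin m → Bool) → (Fin (M * k) → Bool),
      ext = fun (x : Fin m → Bool) (n : Fin (M * k)) =>
        if hn : (n : ℕ) < m then x ⟨n, hn⟩ else false := ⟨_, rfl⟩
  have hextinj : Function.Injective ext := by
    intro x x' he
    funext i
    have h1 := congrFun he ⟨i, lt_of_lt_of_le i.2 hM2⟩
    rw [hext] at h1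
    simpa using h1
  have hleaf : ∀ n : Fin (M * k), Formula 1 1 (fun x => ext x n) := by
    intro n
    rw [hext]
    by_cases hn : (n : ℕ) < m
    · have : (fun x : Fin m → Bool => (fun (x : Fin m → Bool) (n : Fin (M * k)) =>
          if hn : (n : ℕ) < m then x ⟨n, hn⟩ else false) x n) = fun x => x ⟨n, hn⟩ := by
        funext x
        simp [hn]
      rw [this]
      exact formula_lit _
    · have : (fun x : Fin m → Bool => (fun (x : Fin m → Bool) (n : Fin (M * k)) =>
          if hn : (n : ℕ) < m then x ⟨n, hn⟩ else false) x n) = fun _ => false := by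
        funext x
        simp [hn]
      rw [this]
      exact formula_const _
  refine ⟨fun x => G (ext x), fun x x' he => hextinj (hGinj he), ?_, ?_⟩
  · apply formulas_of (ι := Fin M × Fin k × Fin k)
      (fun p => (((h + 2) ^ Nat.pair p.2.1 p.2.2 * W ^ (p.1 : ℕ) : ℕ) : ℤ))
      (fun p x => ext x (finProdFinEquiv (p.1, p.2.1)) && ext x (finProdFinEquiv (p.1, p.2.2)))
      (fun _ => 1 + 1)
    · intro p
      exact Formula.and (hleaf _) (hleaf _)
    · rw [sum_const, card_univ, Fintype.card_prod, Fintype.card_prod, Fintype.card_fin,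
        Fintype.card_fin, smul_eq_mul]
      have : M * (k * k) * (1 + 1) ≤ 4 * m * k := by
        have h1 : M * k ≤ 2 * m := by omega
        have h2 := Nat.mul_le_mul_right (2 * k) h1
        calc M * (k * k) * (1 + 1) = M * k * (2 * k) := by ring
          _ ≤ 2 * m * (2 * k) := h2
          _ = _ := by ring
      exact_mod_cast this
    · intro x
      show ((G (ext x) : ℕ) : ℤ) = _
      rw [hG, Fintype.sum_prod_type]
      push_cast
      refine sum_congr rfl fun i _ => ?_
      rw [quad_supp, sum_mul]
      refine sum_congr rfl fun p _ => ?_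
      unfold block
      push_cast
      ring
  · intro x
    have hne : Nonempty (Fin m → Bool) := inferInstance
    by_cases hu0 : ∃ u0 : Fin h → Fin m → Bool, ∑ j, G (ext (u0 j)) = x
    · obtain ⟨u0, hu0⟩ := hu0
      have hΘ := fun i : Fin M => tuples (q := h + 2) (h := h) (by omega)
        (∑ j, quad (h + 2) (supp (block (ext (u0 j)) i)))
      choose Θ hΘ using hΘ
      refine (rep_le_tuples (fun x => G (ext x)) h x
        (fun (u : Fin h → Fin m → Bool) (i : Fin M) => Θ i fun j => supp (block (ext (u j)) i))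
        ?_).trans (le_of_eq ?_)
      · intro u u' hu hu' he j
        have h1 : ext (u j) = ext (u' j) := by
          apply block_ext
          intro i
          have h2 := key (fun j => ext (u j)) (fun j => ext (u0 j)) (by rw [hu, hu0]) i
          have h3 := key (fun j => ext (u' j)) (fun j => ext (u0 j)) (by rw [hu', hu0]) i
          have h4 := hΘ i _ _ h2 h3 (congrFun he i)
          exact supp_injective (congrFun h4 j)
        rw [h1]
      · rw [Nat.card_eq_fintype_card, Fintype.card_fun, Fintype.card_fun, Fintype.card_finset,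
          Fintype.card_fin, Fintype.card_fin, ← pow_mul, ← pow_mul, mul_assoc]
    · push Not at hu0
      refine (rep_le_tuples (β := Unit) (fun x => G (ext x)) h x (fun _ => ()) ?_).trans ?_
      · intro u u' hu _ _ j
        exact absurd hu (hu0 u)
      · rw [Nat.card_unique]
        exact Nat.one_le_two_pow

/-- **Sharpness.** -/
theorem sharp_all (h : ℕ) : ∀ m L : ℕ, 1 ≤ m → m ≤ L → ∃ F : (Fin m → Bool) → ℕ,
    Function.Injective F ∧ Formulas m L F ∧
      ∀ x, rep (Set.range F) h x ≤ 2 ^ (16 * h * 2 ^ h * (m ^ 2 / L + 1)) := by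
  classical
  intro m L hm hmL
  by_cases hL : L < 4 * m
  · -- the binary digits
    obtain ⟨F, hF⟩ : ∃ F : (Fin m → Bool) → ℕ, F = fun x => ∑ n ∈ range m,
        (if hn : n < m then (x ⟨n, hn⟩).toNat else 0) * 2 ^ n := ⟨_, rfl⟩
    have hd : ∀ (x : Fin m → Bool) (n : ℕ), (if hn : n < m then (x ⟨n, hn⟩).toNat else 0) < 2 := by
      intro x n
      split_ifs
      · have := Bool.toNat_le (x ⟨n, by assumption⟩)
        omega
      · omega
    refine ⟨F, ?_, ?_, ?_⟩
    · intro x x' he
      rw [hF] at he
      funext i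
      have h1 := digits_inj _ _ (hd x) (hd x') m he i i.2
      rw [dif_pos i.2, dif_pos i.2] at h1
      cases h2 : x i <;> cases h3 : x' i <;> simp [h2, h3] at h1 ⊢
    · apply formulas_of (ι := Fin m) (fun i => ((2 ^ (i : ℕ) : ℕ) : ℤ)) (fun i x => x i)
        (fun _ => 1) (fun i => formula_lit i)
      · rw [sum_const, card_univ, Fintype.card_fin, smul_eq_mul, mul_one]
        exact_mod_cast hmL
      · intro x
        rw [hF]
        show ((∑ n ∈ range m, (if hn : n < m then (x ⟨n, hn⟩).toNat else 0) * 2 ^ n : ℕ) : ℤ) = _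
        rw [← Fin.sum_univ_eq_sum_range (fun n => (if hn : n < m then (x ⟨n, hn⟩).toNat else 0) *
          2 ^ n)]
        push_cast
        refine sum_congr rfl fun i _ => ?_
        rw [dif_pos i.2]
        ring
    · intro x
      refine (rep_le_tuples F h x (fun u : Fin h → Fin m → Bool => u) ?_).trans ?_
      · intro u u' _ _ he k
        rw [he]
      · rw [Nat.card_eq_fintype_card, Fintype.card_fun, Fintype.card_fun, Fintype.card_bool,
          Fintype.card_fin, Fintype.card_fin, ← pow_mul]
        apply Nat.pow_le_pow_right (by norm_num)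
        have h1 : m ≤ 4 * (m ^ 2 / L + 1) := by
          have h2 : m ^ 2 < L * (m ^ 2 / L + 1) := Nat.lt_mul_div_succ _ (by omega)
          have h3 : L * (m ^ 2 / L + 1) ≤ 4 * m * (m ^ 2 / L + 1) := Nat.mul_le_mul_right _ hL.le
          have h4 : m * m < m * (4 * (m ^ 2 / L + 1)) := by
            calc m * m = m ^ 2 := by ring
              _ < 4 * m * (m ^ 2 / L + 1) := lt_of_lt_of_le h2 h3
              _ = _ := by ring
          exact (Nat.lt_of_mul_lt_mul_left h4).le
        have h2 : 1 ≤ 2 ^ h := Nat.one_le_two_pow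
        calc m * h ≤ 4 * (m ^ 2 / L + 1) * h := Nat.mul_le_mul_right _ h1
          _ = 4 * h * 1 * (m ^ 2 / L + 1) := by ring
          _ ≤ 16 * h * 2 ^ h * (m ^ 2 / L + 1) := by
              apply Nat.mul_le_mul_right
              exact Nat.mul_le_mul (Nat.mul_le_mul_right _ (by norm_num)) h2
  · push Not at hL
    obtain ⟨k, hk⟩ : ∃ k, k = min m (L / (4 * m)) := ⟨_, rfl⟩
    have h4m : 0 < 4 * m := by omega
    have hdiv : 1 ≤ L / (4 * m) := (Nat.one_le_div_iff h4m).2 hL
    have hk1 : 1 ≤ k := by rw [hk]; exact le_min hm hdiv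
    have hkm : k ≤ m := by rw [hk]; exact min_le_left _ _
    have hkL : 4 * m * k ≤ L := by
      have h1 : k ≤ L / (4 * m) := by rw [hk]; exact min_le_right _ _
      exact (Nat.mul_le_mul_left _ h1).trans (Nat.mul_div_le _ _)
    obtain ⟨F, hF1, hF2, hF3⟩ := sharp_blocks h m k hk1 hkm
    refine ⟨F, hF1, ?_, fun x => (hF3 x).trans ?_⟩
    · obtain ⟨s, c, g, L', K', e1, e2, e3⟩ := hF2
      refine ⟨s, c, g, L', K', e1, e2.trans ?_, e3⟩
      exact_mod_cast hkL
    · apply Nat.pow_le_pow_right (by norm_num)
      have h5 : (m + k - 1) / k ≤ 16 * (m ^ 2 / L + 1) := by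
        obtain ⟨M, hM⟩ : ∃ M, M = (m + k - 1) / k := ⟨_, rfl⟩
        rw [← hM]
        have hM1 : M * k ≤ m + k - 1 := by
          rw [hM]
          exact Nat.div_mul_le_self _ _
        by_cases hkm' : k = m
        · have h6 : M * m < 2 * m := by
            rw [hkm'] at hM1
            omega
          have h7 : M < 2 := Nat.lt_of_mul_lt_mul_right h6
          generalize m ^ 2 / L = d
          omega
        · have hk' : k = L / (4 * m) := by
            rw [hk]
            apply min_eq_right
            by_contra hcon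
            push Not at hcon
            apply hkm'
            rw [hk]
            exact min_eq_left hcon.le
          have h6 : L < 4 * m * (k + 1) := by
            rw [hk']
            exact Nat.lt_mul_div_succ _ h4m
          have h7 : M * L ≤ 16 * m ^ 2 := by
            have h8 : L ≤ 8 * m * k := by nlinarith
            have h9 : M * k ≤ 2 * m := by omega
            calc M * L ≤ M * (8 * m * k) := Nat.mul_le_mul_left _ h8
              _ = M * k * (8 * m) := by ring
              _ ≤ 2 * m * (8 * m) := Nat.mul_le_mul_right _ h9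
              _ = _ := by ring
          have h8 : m ^ 2 < L * (m ^ 2 / L + 1) := Nat.lt_mul_div_succ _ (by omega)
          have h9 : M * L < 16 * (m ^ 2 / L + 1) * L := by
            calc M * L ≤ 16 * m ^ 2 := h7
              _ < 16 * (L * (m ^ 2 / L + 1)) := by omega
              _ = _ := by ring
          exact (Nat.lt_of_mul_lt_mul_right h9).le
      calc h * 2 ^ h * ((m + k - 1) / k) ≤ h * 2 ^ h * (16 * (m ^ 2 / L + 1)) :=
            Nat.mul_le_mul_left _ h5
        _ = _ := by ring

end Pool.Agent.U33.FM
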