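import Pool.Agent.U33.FM.Dense
import Pool.Agent.U33.FM.Sharp

/-!
# Consequences for thick sets
-/

set_option autoImplicit false
set_option linter.unusedSectionVars false

namespace Pool.Agent.U33.FM

open Finset Filter
open Pool.Agent.U33.TS (rep finite_multisets)
open Pool.Agent.U33.AS

/-- the values of `F` lie in `A ∩ [0, 2 ^ n)`, and each is taken with probability at most
`|A ∩ [0, 2 ^ n)| ^ (-γ)` -/
def Samples (A : Set ℕ) (n : ℕ) (γ : ℝ) {m : ℕ} (F : (Fin m → Bool) → ℕ) : Prop :=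
  (∀ y, F y ∈ A ∧ F y < 2 ^ n) ∧
    ∀ v, (({y | F y = v} : Set (Fin m → Bool)).ncard : ℝ) *
      ((A ∩ Set.Iio (2 ^ n)).ncard : ℝ) ^ γ ≤ 2 ^ m

lemma entropy_of_samples {A : Set ℕ} {n : ℕ} {γ : ℝ} (hγ : 0 < γ)
    (hcount : 2 ^ n ≤ ((A ∩ Set.Iio (2 ^ n)).ncard) ^ 3) {m : ℕ} {F : (Fin m → Bool) → ℕ}
    (hF : Samples A n γ F) : γ * n / 3 ≤ entropy F := by
  obtain ⟨-, hfib⟩ := hF
  obtain ⟨N, hN⟩ : ∃ N : ℕ, N = (A ∩ Set.Iio (2 ^ n)).ncard := ⟨_, rfl⟩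
  rw [← hN] at hcount hfib
  have hNpos : 0 < N := by
    rcases Nat.eq_zero_or_pos N with h0 | h0
    · rw [h0, zero_pow (by omega)] at hcount
      have : 0 < 2 ^ n := by positivity
      omega
    · exact h0
  have hN' : (0 : ℝ) < N := by exact_mod_cast hNpos
  have hNl : (n : ℝ) / 3 ≤ Real.logb 2 N := by
    have h1 : (2 : ℝ) ^ n ≤ (N : ℝ) ^ 3 := by exact_mod_cast hcount
    have h2 := Real.logb_le_logb_of_le (by norm_num : (1 : ℝ) < 2) (by positivity) h1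
    rw [← Real.rpow_natCast 2 n, Real.logb_rpow (by norm_num) (by norm_num), Real.logb_pow] at h2
    rw [div_le_iff₀ (by norm_num)]
    push_cast at h2
    linarith
  have h1 : Real.logb 2 ((N : ℝ) ^ γ) ≤ entropy F := by
    apply entropy_ge F
    intro v
    rw [div_le_div_iff₀ (by positivity) (Real.rpow_pos_of_pos hN' _), one_mul]
    have h2 := hfib v
    have h3 : ({x | F x = v} : Set (Fin m → Bool)).ncard = (univ.filter fun x => F x = v).card := by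
      rw [← Set.ncard_coe_finset]
      congr 1
      ext x
      simp
    rw [h3] at h2
    exact h2
  rw [Real.logb_rpow_eq_mul_logb_of_pos hN'] at h1
  have h2 := mul_le_mul_of_nonneg_left hNl hγ.le
  rw [← mul_div_assoc] at h2
  exact h2.trans h1

/-- the main inequality for samplers -/
lemma rep_of_samples {A : Set ℕ} {n h : ℕ} (hh : 2 ≤ h) {γ Λ : ℝ} (hγ : 0 < γ) (hΛ : 0 < Λ)
    (hcount : 2 ^ n ≤ ((A ∩ Set.Iio (2 ^ n)).ncard) ^ 3) {m : ℕ} {F : (Fin m → Bool) → ℕ}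
    (hF : Samples A n γ F) (hc : Cheap m Λ F) : ∃ x < h * 2 ^ n,
      (2 : ℝ) ^ ((γ * n / 3) ^ 2 / (2 ^ 45 * Λ)) ≤ 2 * rep A h x := by
  have h1 := entropy_of_samples hγ hcount hF
  obtain ⟨x, hx1, hx2⟩ := cheap hh hc (fun y => (hF.1 y).1)
  refine ⟨x, hx1 _ fun y => (hF.1 y).2, le_trans ?_ hx2⟩
  apply Real.rpow_le_rpow_of_exponent_le (by norm_num)
  apply div_le_div_of_nonneg_right _ (by positivity)
  exact pow_le_pow_left₀ (by positivity) h1 2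

/-- the representation function is unbounded -/
theorem unbounded {A : Set ℕ} {h : ℕ} (hh : 2 ≤ h)
    (hcount : ∀ᶠ n : ℕ in atTop, 2 ^ n ≤ ((A ∩ Set.Iio (2 ^ n)).ncard) ^ 3) {γ : ℝ} (hγ : 0 < γ)
    (hs : ∀ ε : ℝ, 0 < ε → ∃ᶠ n : ℕ in atTop, ∃ (m : ℕ) (F : (Fin m → Bool) → ℕ),
      Cheap m (ε * (n : ℝ) ^ 2) F ∧ Samples A n γ F) (R : ℕ) : ∃ x, R < rep A h x := by
  obtain ⟨T, hT⟩ : ∃ T : ℝ, T = Real.logb 2 (2 * R + 4) := ⟨_, rfl⟩
  have hT0 : 0 < T := by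
    rw [hT]
    apply Real.logb_pos (by norm_num)
    have := Nat.cast_nonneg (α := ℝ) R
    linarith
  obtain ⟨ε, hε⟩ : ∃ ε : ℝ, ε = γ ^ 2 / (9 * 2 ^ 45 * T) := ⟨_, rfl⟩
  have hε0 : 0 < ε := by rw [hε]; positivity
  obtain ⟨n, ⟨m, F, hF1, hF2⟩, hn1, hn2⟩ :=
    ((hs ε hε0).and_eventually (hcount.and (eventually_ge_atTop 1))).exists
  have hn : (0 : ℝ) < n := by
    have : 0 < n := by omega
    exact_mod_cast this
  obtain ⟨x, -, hx⟩ := rep_of_samples hh hγ (by positivity) hn1 hF2 hF1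
  have h1 : (γ * n / 3) ^ 2 / (2 ^ 45 * (ε * (n : ℝ) ^ 2)) = T := by
    rw [hε]
    field_simp
    norm_num
  rw [h1, hT, Real.rpow_logb (by norm_num) (by norm_num) (by positivity)] at hx
  refine ⟨x, ?_⟩
  have : (R : ℝ) < rep A h x := by linarith
  exact_mod_cast this

/-- a trivial upper bound -/
lemma rep_two_le (A : Set ℕ) (x : ℕ) : rep A 2 x ≤ x + 1 := by
  classical
  unfold rep
  have h1 : Set.InjOn (fun s : Multiset ℕ => s.sup) {s : Multiset ℕ | Multiset.card s = 2 ∧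
      (∀ a ∈ s, a ∈ A) ∧ s.sum = x} := by
    rintro s ⟨hs1, -, hs2⟩ t ⟨ht1, -, ht2⟩ hst
    obtain ⟨a, b, rfl⟩ := Multiset.card_eq_two.1 hs1
    obtain ⟨c, d, rfl⟩ := Multiset.card_eq_two.1 ht1
    simp only [Multiset.insert_eq_cons, Multiset.sum_cons, Multiset.sum_singleton,
      Multiset.sup_cons, Multiset.sup_singleton] at hs2 ht2 hst
    have h3 : (a = c ∧ b = d) ∨ (a = d ∧ b = c) := by
      rcases le_total a b with h4 | h4 <;> rcases le_total c d with h5 | h5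
      · rw [sup_eq_right.2 h4, sup_eq_right.2 h5] at hst
        omega
      · rw [sup_eq_right.2 h4, sup_eq_left.2 h5] at hst
        omega
      · rw [sup_eq_left.2 h4, sup_eq_right.2 h5] at hst
        omega
      · rw [sup_eq_left.2 h4, sup_eq_left.2 h5] at hst
        omega
    rcases h3 with ⟨rfl, rfl⟩ | ⟨rfl, rfl⟩
    · rfl
    · exact Multiset.pair_comm _ _
  have h2 : (fun s : Multiset ℕ => s.sup) '' {s : Multiset ℕ | Multiset.card s = 2 ∧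
      (∀ a ∈ s, a ∈ A) ∧ s.sum = x} ⊆ ((Finset.range (x + 1) : Finset ℕ) : Set ℕ) := by
    rintro _ ⟨s, ⟨hs1, -, hs2⟩, rfl⟩
    rw [Finset.mem_coe, Finset.mem_range]
    have : s.sup ≤ x := Multiset.sup_le.2 fun a ha => by
      rw [← hs2]
      exact Multiset.single_le_sum (fun _ _ => Nat.zero_le _) a ha
    show s.sup < x + 1
    omega
  calc _ = _ := h1.ncard_image.symm
    _ ≤ _ := Set.ncard_le_ncard h2 (Finset.finite_toSet _)
    _ = x + 1 := by rw [Set.ncard_coe_finset, Finset.card_range]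

lemma Cheap.nonneg {m : ℕ} {Λ : ℝ} {F : (Fin m → Bool) → ℕ} (h : Cheap m Λ F) : 0 ≤ Λ := by
  obtain ⟨s, c, g, C, hg, hΛ, -⟩ := h
  exact le_trans (Finset.sum_nonneg fun j _ => Nat.cast_nonneg _) hΛ

/-- the quantitative form -/
theorem quant {A : Set ℕ} {h : ℕ} (hh : 2 ≤ h)
    (hcount : ∀ᶠ n : ℕ in atTop, 2 ^ n ≤ ((A ∩ Set.Iio (2 ^ n)).ncard) ^ 3) {γ : ℝ} (hγ : 0 < γ) :
    ∀ᶠ n : ℕ in atTop, ∀ (m : ℕ) (Λ : ℝ) (F : (Fin m → Bool) → ℕ), Cheap m Λ F →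
      Samples A n γ F → ∃ x < h * 2 ^ n,
        (2 : ℝ) ^ ((γ * n) ^ 2 / (2 ^ 49 * Λ)) ≤ 2 * rep A h x := by
  filter_upwards [hcount] with n hn m Λ F hc hF
  rcases hc.nonneg.eq_or_lt with h0 | hΛ
  · refine ⟨h * F (fun _ => false), Nat.mul_lt_mul_of_pos_left (hF.1 _).2 (by omega), ?_⟩
    have h1 := rep_one h _ (hF.1 fun _ => false).1
    have h2 : (1 : ℝ) ≤ rep A h (h * F fun _ => false) := by exact_mod_cast h1
    rw [← h0]
    simp
    linarith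
  · obtain ⟨x, hx1, hx2⟩ := rep_of_samples hh hγ hΛ hn hF hc
    refine ⟨x, hx1, le_trans ?_ hx2⟩
    apply Real.rpow_le_rpow_of_exponent_le (by norm_num)
    rw [div_le_div_iff₀ (by positivity) (by positivity)]
    have h1 : 0 ≤ (γ * n) ^ 2 * Λ := by positivity
    have h2 : (γ * n / 3) ^ 2 * (2 ^ 49 * Λ) = 2 ^ 49 / 9 * ((γ * n) ^ 2 * Λ) := by ring
    have h3 : (γ * n) ^ 2 * (2 ^ 45 * Λ) = 2 ^ 45 * ((γ * n) ^ 2 * Λ) := by ring
    rw [h2, h3]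
    apply mul_le_mul_of_nonneg_right _ h1
    norm_num

/-- linear cost: a power bound -/
theorem power {A : Set ℕ}
    (hcount : ∀ᶠ n : ℕ in atTop, 2 ^ n ≤ ((A ∩ Set.Iio (2 ^ n)).ncard) ^ 3) {γ C : ℝ}
    (hγ : 0 < γ) (hC : 0 < C)
    (hs : ∃ᶠ n : ℕ in atTop, ∃ (m : ℕ) (F : (Fin m → Bool) → ℕ),
      Cheap m (C * n) F ∧ Samples A n γ F) :
    ∃ᶠ x : ℕ in atTop, (x : ℝ) ^ (γ ^ 2 / (2 ^ 51 * C)) ≤ (rep A 2 x : ℝ) := by
  obtain ⟨a, ha⟩ : ∃ a : ℝ, a = γ ^ 2 / (2 ^ 49 * C) := ⟨_, rfl⟩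
  have ha0 : 0 < a := by rw [ha]; positivity
  have hc : γ ^ 2 / (2 ^ 51 * C) = a / 4 := by
    rw [ha]
    field_simp
    norm_num
  rw [hc, frequently_atTop]
  intro X
  obtain ⟨n0, hn0⟩ := exists_nat_ge (2 / a * (X + 1))
  obtain ⟨n, ⟨m, F, hF1, hF2⟩, hn1, hn2, hn3⟩ :=
    (hs.and_eventually ((quant (h := 2) le_rfl hcount hγ).and
      ((eventually_ge_atTop n0).and (eventually_ge_atTop 1)))).exists
  obtain ⟨x, hx1, hx2⟩ := hn1 m _ F hF1 hF2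
  have hn : (1 : ℝ) ≤ n := by exact_mod_cast hn3
  have hnn : (0 : ℝ) < n := by linarith
  have hn' : 2 / a * (X + 1) ≤ n := hn0.trans (by exact_mod_cast hn2)
  have hX0 : (0 : ℝ) ≤ X := Nat.cast_nonneg X
  have han : 2 * ((X : ℝ) + 1) ≤ a * n := by
    have := mul_le_mul_of_nonneg_left hn' ha0.le
    have e : a * (2 / a * (X + 1)) = 2 * ((X : ℝ) + 1) := by
      field_simp
    linarith
  have h1 : (γ * n) ^ 2 / (2 ^ 49 * (C * n)) = a * n := by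
    rw [ha]
    field_simp
  rw [h1] at hx2
  have h2 : (2 : ℝ) ^ (a * n / 2) ≤ rep A 2 x := by
    have h3 : (2 : ℝ) ^ (a * n / 2 + 1) ≤ 2 ^ (a * n) :=
      Real.rpow_le_rpow_of_exponent_le (by norm_num) (by linarith)
    rw [Real.rpow_add (by norm_num), Real.rpow_one] at h3
    linarith
  refine ⟨x, ?_, ?_⟩
  · have h5 : (rep A 2 x : ℝ) ≤ x + 1 := by exact_mod_cast rep_two_le A x
    have h6 : ((X : ℝ) + 1) ≤ 2 ^ (a * n / 2) := by
      have h7 : (2 : ℝ) ^ ((X : ℝ) + 1) ≤ 2 ^ (a * n / 2) :=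
        Real.rpow_le_rpow_of_exponent_le (by norm_num) (by linarith)
      have h8 : (X : ℝ) + 1 ≤ 2 ^ ((X : ℝ) + 1) := by
        have h9 : (X + 1) ≤ 2 ^ (X + 1) := Nat.lt_two_pow_self.le
        have h10 : ((X : ℝ) + 1) = ((X + 1 : ℕ) : ℝ) := by push_cast; ring
        rw [h10, Real.rpow_natCast]
        exact_mod_cast h9
      linarith
    have h7 : (X : ℝ) ≤ x := by linarith
    exact_mod_cast h7
  · refine le_trans ?_ h2
    have h5 : (x : ℝ) ≤ 2 ^ ((n : ℝ) + 1) := by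
      have : x ≤ 2 ^ (n + 1) := by
        rw [pow_succ]
        omega
      have h6 : ((n : ℝ) + 1) = ((n + 1 : ℕ) : ℝ) := by push_cast; ring
      rw [h6, Real.rpow_natCast]
      exact_mod_cast this
    calc (x : ℝ) ^ (a / 4) ≤ (2 ^ ((n : ℝ) + 1)) ^ (a / 4) :=
          Real.rpow_le_rpow (Nat.cast_nonneg x) h5 (by positivity)
      _ = 2 ^ (((n : ℝ) + 1) * (a / 4)) := (Real.rpow_mul (by norm_num) _ _).symm
      _ ≤ 2 ^ (a * n / 2) := by
          apply Real.rpow_le_rpow_of_exponent_le (by norm_num)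
          nlinarith

end Pool.Agent.U33.FM
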