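import Pool.Agent.H676.Shrink
import Pool.Agent.H568R2.Collapse

/-!
# The number of variables after a random restriction, for functions with a small adversary bound
-/

set_option autoImplicit false
set_option linter.unusedSectionVars false

namespace Pool.Agent.U33.FM

open Finset H568R2 H676

variable {I : Type} [Fintype I] [DecidableEq I]

open Classical in
/-- the relevant variables -/
noncomputable def rel (f : (I → Bool) → Bool) : Finset I :=
  univ.filter fun i => ∃ x : I → Bool, ∃ b : Bool, f (Function.update x i b) ≠ f x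

lemma rel_sub {f : (I → Bool) → Bool} {A : Finset I} (h : DepOn f A) : rel f ⊆ A := by
  intro i hi
  by_contra hiA
  unfold rel at hi
  rw [mem_filter] at hi
  obtain ⟨-, x, b, hx⟩ := hi
  apply hx
  apply h
  intro j hj
  have : j ≠ i := fun e => hiA (e ▸ hj)
  rw [Function.update_of_ne this]

lemma not_rel {f : (I → Bool) → Bool} {i : I} (hi : i ∉ rel f) (x : I → Bool) (b : Bool) :
    f (Function.update x i b) = f x := by
  by_contra h
  apply hi
  unfold rel
  rw [mem_filter]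
  exact ⟨mem_univ _, x, b, h⟩

lemma dep_rel (f : (I → Bool) → Bool) : DepOn f (rel f) := by
  classical
  have key : ∀ (B : Finset I), Disjoint B (rel f) → ∀ x y : I → Bool,
      (∀ i, i ∉ B → x i = y i) → f x = f y := by
    intro B
    induction B using Finset.induction_on with
    | empty =>
      intro _ x y h
      have : x = y := funext fun i => h i (by simp)
      rw [this]
    | insert i B hi ih =>
      intro hB x y h
      rw [disjoint_insert_left] at hB
      have h1 := ih hB.2 (Function.update x i (y i)) y (by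
        intro j hj
        by_cases hji : j = i
        · subst hji; simp
        · rw [Function.update_of_ne hji]
          exact h j (by simp [hji, hj]))
      rw [← h1, not_rel hB.1]
  intro x y h
  refine key (rel f)ᶜ (by
    rw [disjoint_left]
    intro i hi
    simpa using hi) x y ?_
  intro i hi
  exact h i (by simpa using hi)

lemma not_junta {f : (I → Bool) → Bool} {K : ℕ} (h : K < (rel f).card) : ¬ Junta K f := by
  rintro ⟨A, hA, hf⟩
  have := card_le_card (rel_sub hf)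
  omega

lemma rel_rs (f : (I → Bool) → Bool) (σ : Restr I) :
    rel (rs f σ) ⊆ (rel f).filter fun i => σ i = none := by
  intro i hi
  have h1 : i ∈ rel f := rel_sub ((dep_rel f).rs σ) hi
  rw [mem_filter]
  refine ⟨h1, ?_⟩
  by_contra hne
  have : i ∈ (univ.erase i : Finset I) := by
    refine rel_sub (f := rs f σ) (A := univ.erase i) ?_ hi
    intro x y hxy
    unfold rs
    congr 1
    funext j
    unfold ov
    by_cases hj : j = i
    · subst hj
      obtain ⟨b, hb⟩ := Option.ne_none_iff_exists'.1 hne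
      rw [hb]
      rfl
    · rw [hxy j (by simp [hj])]
  simp at this

/-- two coordinates are free -/
lemma two_free {q : ℝ} {i j : I} (hij : i ≠ j) :
    Ex (wq q) (fun σ : Restr I => if σ i = none ∧ σ j = none then (1 : ℝ) else 0) = q ^ 2 := by
  have h := Ex_indep (I := I) (wq_sum q) (fun a : Option Bool => a = none) ({i, j} : Finset I)
    (fun _ => (1 : ℝ)) (fun _ _ _ _ => rfl)
  rw [Ex_const (wq_sum q), mul_one] at h
  have h2 : ∑ a ∈ univ.filter (fun a : Option Bool => a = none), wq q a = q := by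
    rw [Finset.sum_filter, Fintype.sum_option]
    simp [wq]
  rw [h2, card_pair hij] at h
  rw [← h]
  congr 1
  funext σ
  simp

/-- the second stage -/
lemma stage_two {q : ℝ} (h0 : 0 ≤ q) (h1 : q ≤ 1) (f : (I → Bool) → Bool) :
    Ex (wq q) (fun σ : Restr I => (((rel (rs f σ)).card - 1 : ℕ) : ℝ)) ≤
      q ^ 2 * ((rel f).card : ℝ) ^ 2 / 2 := by
  classical
  have h2 : ∀ σ : Restr I, (((rel (rs f σ)).card - 1 : ℕ) : ℝ) ≤
      (1 / 2) * ∑ p ∈ (rel f).offDiag, if σ p.1 = none ∧ σ p.2 = none then (1 : ℝ) else 0 := by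
    intro σ
    obtain ⟨T, hT⟩ : ∃ T, T = (rel f).filter fun i => σ i = none := ⟨_, rfl⟩
    have h3 : (rel (rs f σ)).card ≤ T.card := by
      rw [hT]
      exact card_le_card (rel_rs f σ)
    have h4 : ∑ p ∈ (rel f).offDiag, (if σ p.1 = none ∧ σ p.2 = none then (1 : ℝ) else 0) =
        ((T.offDiag.card : ℕ) : ℝ) := by
      rw [← Finset.sum_filter, Finset.sum_const, nsmul_eq_mul, mul_one]
      congr 2
      ext p
      rw [hT]
      simp only [mem_filter, mem_offDiag]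
      tauto
    rw [h4, offDiag_card]
    have h5 : 2 * ((rel (rs f σ)).card - 1) ≤ T.card * T.card - T.card := by
      rcases Nat.lt_or_ge T.card 2 with h | h
      · have : (rel (rs f σ)).card - 1 = 0 := by omega
        rw [this]
        omega
      · obtain ⟨t, ht⟩ : ∃ t, T.card = t + 2 := ⟨T.card - 2, by omega⟩
        rw [ht] at h3 ⊢
        have : (t + 2) * (t + 2) - (t + 2) = (t + 2) * (t + 1) := by
          rw [Nat.sub_eq_iff_eq_add (by nlinarith)]
          ring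
        rw [this]
        have h6 : (rel (rs f σ)).card - 1 ≤ t + 1 := by omega
        nlinarith
    have h7 : (2 : ℝ) * (((rel (rs f σ)).card - 1 : ℕ) : ℝ) ≤ ((T.card * T.card - T.card : ℕ) : ℝ) := by
      exact_mod_cast h5
    linarith
  refine (Ex_mono (wq_nonneg h0 h1) h2).trans ?_
  rw [Ex_smul, Ex_sum]
  have h3 : ∑ p ∈ (rel f).offDiag, Ex (wq q) (fun σ : Restr I =>
      if σ p.1 = none ∧ σ p.2 = none then (1 : ℝ) else 0) = ((rel f).offDiag.card : ℝ) * q ^ 2 := by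
    rw [Finset.sum_congr rfl fun p hp => two_free (mem_offDiag.1 hp).2.2, Finset.sum_const,
      nsmul_eq_mul]
  rw [h3]
  have h4 : ((rel f).offDiag.card : ℝ) ≤ ((rel f).card : ℝ) ^ 2 := by
    rw [offDiag_card, sq]
    have : (rel f).card * (rel f).card - (rel f).card ≤ (rel f).card * (rel f).card :=
      Nat.sub_le _ _
    exact_mod_cast this
  have h5 := mul_le_mul_of_nonneg_right h4 (sq_nonneg q)
  linarith

/-- the squares, from the tails -/
lemma sq_le_tails (N M : ℕ) (hN : N ≤ M) :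
    (N : ℝ) ^ 2 ≤ ∑ t ∈ range (M + 1), (((t : ℝ) + 1) * 4 ^ (t + 1)) ^ 2 *
      (if t * 4 ^ t < N then (1 : ℝ) else 0) := by
  have hnn : ∀ t ∈ range (M + 1), (0 : ℝ) ≤ (((t : ℝ) + 1) * 4 ^ (t + 1)) ^ 2 *
      (if t * 4 ^ t < N then (1 : ℝ) else 0) := by
    intro t _
    split_ifs <;> positivity
  rcases Nat.eq_zero_or_pos N with h0 | hpos
  · subst h0
    simpa using Finset.sum_nonneg hnn
  · obtain ⟨t, ht, hmax⟩ : ∃ t, t * 4 ^ t < N ∧ N ≤ (t + 1) * 4 ^ (t + 1) := by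
      by_contra hcon
      push Not at hcon
      have : ∀ t, t * 4 ^ t < N := by
        intro t
        induction t with
        | zero => simpa using hpos
        | succ t ih => exact hcon t ih
      have h1 := this N
      have h2 : 1 ≤ 4 ^ N := Nat.one_le_pow _ _ (by norm_num)
      nlinarith
    have htM : t ∈ range (M + 1) := by
      rw [mem_range]
      have h2 : 1 ≤ 4 ^ t := Nat.one_le_pow _ _ (by norm_num)
      nlinarith
    refine le_trans ?_ (Finset.single_le_sum hnn htM)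
    rw [if_pos ht, mul_one]
    apply pow_le_pow_left₀ (by positivity)
    exact_mod_cast hmax

lemma geo (n : ℕ) : ∑ t ∈ range n, ((t : ℝ) + 1) ^ 2 * (1 / 4 : ℝ) ^ t ≤ 3 := by
  have h : ∑ t ∈ range n, ((t : ℝ) + 1) ^ 2 * (1 / 4 : ℝ) ^ t =
      80 / 27 - (1 / 4 : ℝ) ^ n * (4 / 3 * (n : ℝ) ^ 2 + 32 / 9 * n + 80 / 27) := by
    induction n with
    | zero => simp
    | succ n ih =>
      rw [Finset.sum_range_succ, ih, pow_succ]
      push_cast
      ring
  rw [h]
  have : (0 : ℝ) ≤ (1 / 4 : ℝ) ^ n * (4 / 3 * (n : ℝ) ^ 2 + 32 / 9 * n + 80 / 27) := by positivity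
  linarith

open Classical in
/-- the first stage -/
lemma stage_one {K s k : ℕ} (hK : 1 ≤ K) (hs : 1 ≤ s) {f : (I → Bool) → Bool} (hf : Adv K s f)
    (hk : 4096 * s ≤ 4 ^ k) {q : ℝ} (hq : 32 * K * 2 ^ k * q = 1 / 64) :
    Ex (wq q) (fun ρ : Restr I => ((rel (rs f ρ)).card : ℝ) ^ 2) ≤ 240 := by
  have hk1 : (1 : ℝ) ≤ 2 ^ k := one_le_pow₀ (by norm_num)
  have hK1 : (1 : ℝ) ≤ K := by exact_mod_cast hK
  have hKk : (1 : ℝ) ≤ K * 2 ^ k := one_le_mul_of_one_le_of_one_le hK1 hk1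
  have hq' : 32 * (K * 2 ^ k) * q = 1 / 64 := by rw [← hq]; ring
  have hq0 : 0 < q := by
    by_contra h
    push Not at h
    have : 32 * (K * 2 ^ k) * q ≤ 0 := mul_nonpos_of_nonneg_of_nonpos (by positivity) h
    rw [hq'] at this
    norm_num at this
  have hq1 : q ≤ 1 := by
    have h1 : q ≤ 32 * (K * 2 ^ k) * q := by nlinarith
    rw [hq'] at h1
    linarith
  have h1 : ∀ t : ℕ, Ex (wq q) (fun ρ : Restr I =>
      if t * 4 ^ t < (rel (rs f ρ)).card then (1 : ℝ) else 0) ≤ 5 * (1 / 64) ^ t := by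
    intro t
    have h2 := Adv.shrink (t := t) hK hs hf hk hq0 (by
      rw [hq]
      norm_num)
    rw [hq] at h2
    refine le_trans (Ex_mono (wq_nonneg hq0.le hq1) fun ρ => ?_) h2
    by_cases h3 : t * 4 ^ t < (rel (rs f ρ)).card
    · rw [if_pos h3, if_pos (not_junta h3)]
    · rw [if_neg h3]
      split_ifs <;> norm_num
  obtain ⟨M, hM⟩ : ∃ M, M = Fintype.card I := ⟨_, rfl⟩
  have h2 : ∀ ρ : Restr I, ((rel (rs f ρ)).card : ℝ) ^ 2 ≤
      ∑ t ∈ range (M + 1), (((t : ℝ) + 1) * 4 ^ (t + 1)) ^ 2 *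
        (if t * 4 ^ t < (rel (rs f ρ)).card then (1 : ℝ) else 0) := by
    intro ρ
    apply sq_le_tails
    rw [hM]
    exact card_le_univ _
  refine (Ex_mono (wq_nonneg hq0.le hq1) h2).trans ?_
  rw [Ex_sum]
  have h3 : ∀ t ∈ range (M + 1), Ex (wq q) (fun ρ : Restr I =>
      (((t : ℝ) + 1) * 4 ^ (t + 1)) ^ 2 *
        (if t * 4 ^ t < (rel (rs f ρ)).card then (1 : ℝ) else 0)) ≤
      80 * (((t : ℝ) + 1) ^ 2 * (1 / 4) ^ t) := by
    intro t _
    rw [Ex_smul]
    refine (mul_le_mul_of_nonneg_left (h1 t) (by positivity)).trans (le_of_eq ?_)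
    have h4 : (4 : ℝ) ^ (t + 1) = 4 * 4 ^ t := by ring
    have h5 : (1 / 64 : ℝ) ^ t = (1 / 4) ^ t * ((1 / 4) ^ t * (1 / 4) ^ t) := by
      rw [← mul_pow, ← mul_pow]
      norm_num
    have h6 : (4 : ℝ) ^ t * (1 / 4) ^ t = 1 := by
      rw [← mul_pow]
      norm_num
    rw [h4, h5]
    calc (((t : ℝ) + 1) * (4 * 4 ^ t)) ^ 2 * (5 * ((1 / 4) ^ t * ((1 / 4) ^ t * (1 / 4) ^ t))) =
          80 * (((t : ℝ) + 1) ^ 2 * (1 / 4) ^ t) * ((4 : ℝ) ^ t * (1 / 4) ^ t) ^ 2 := by ring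
      _ = _ := by rw [h6]; ring
  refine (Finset.sum_le_sum h3).trans ?_
  rw [← Finset.mul_sum]
  have := geo (M + 1)
  linarith

lemma exists_k (s : ℕ) (hs : 1 ≤ s) : ∃ k, 4096 * s ≤ 4 ^ k ∧ 4 ^ k ≤ 16384 * s := by
  refine ⟨Nat.clog 4 (4096 * s), Nat.le_pow_clog (by norm_num) _, ?_⟩
  have h1 : 1 < 4096 * s := by omega
  have h2 := Nat.pow_pred_clog_lt_self (b := 4) (by norm_num) h1
  obtain ⟨k, hk⟩ : ∃ k, Nat.clog 4 (4096 * s) = k + 1 := by
    have : 0 < Nat.clog 4 (4096 * s) := Nat.clog_pos (by norm_num) (by omega)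
    exact ⟨Nat.clog 4 (4096 * s) - 1, by omega⟩
  rw [hk] at h2 ⊢
  simp only [Nat.pred_succ] at h2
  rw [pow_succ]
  omega

open Classical in
/-- **The expected number of superfluous variables.** -/
theorem cost {K s : ℕ} (hK : 1 ≤ K) (hs : 1 ≤ s) {f : (I → Bool) → Bool} (hf : Adv K s f) {q : ℝ}
    (hq0 : 0 < q) (hq : 2 ^ 36 * (s * K ^ 2) * q ^ 2 ≤ 1) :
    Ex (wq q) (fun ρ : Restr I => (((rel (rs f ρ)).card - 1 : ℕ) : ℝ)) ≤
      2 ^ 43 * (s * K ^ 2) * q ^ 2 := by
  obtain ⟨k, hk1, hk2⟩ := exists_k s hs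
  have hk2' : (4 : ℝ) ^ k ≤ 16384 * s := by exact_mod_cast hk2
  have hK1 : (1 : ℝ) ≤ K := by exact_mod_cast hK
  have h4 : (4 : ℝ) ^ k = 2 ^ k * 2 ^ k := by
    rw [← mul_pow]
    norm_num
  obtain ⟨q1, hq1⟩ : ∃ q1 : ℝ, q1 = 1 / (2048 * (K * 2 ^ k)) := ⟨_, rfl⟩
  have hq1p : 0 < q1 := by rw [hq1]; positivity
  have hq1le : q1 ≤ 1 := by
    rw [hq1, div_le_one (by positivity)]
    have : (1 : ℝ) ≤ 2 ^ k := one_le_pow₀ (by norm_num)
    have : (1 : ℝ) ≤ K * 2 ^ k := one_le_mul_of_one_le_of_one_le hK1 this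
    linarith
  have hst : 32 * K * 2 ^ k * q1 = 1 / 64 := by
    rw [hq1]
    field_simp
    norm_num
  obtain ⟨q2, hq2⟩ : ∃ q2 : ℝ, q2 = q * (2048 * (K * 2 ^ k)) := ⟨_, rfl⟩
  have hq2p : 0 < q2 := by rw [hq2]; positivity
  have hq2sq : q2 ^ 2 ≤ 2 ^ 36 * (s * K ^ 2) * q ^ 2 := by
    rw [hq2]
    calc (q * (2048 * (K * 2 ^ k))) ^ 2 = 4194304 * K ^ 2 * q ^ 2 * (2 ^ k * 2 ^ k) := by ring
      _ = 4194304 * K ^ 2 * q ^ 2 * 4 ^ k := by rw [h4]
      _ ≤ 4194304 * K ^ 2 * q ^ 2 * (16384 * s) := mul_le_mul_of_nonneg_left hk2' (by positivity)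
      _ = _ := by ring
  have hq2le : q2 ≤ 1 := by
    have : q2 ^ 2 ≤ 1 := hq2sq.trans hq
    nlinarith
  have hqq : q = q1 * q2 := by
    rw [hq1, hq2]
    field_simp
  rw [hqq, wq_cmp]
  have h5 : ∀ ρ : Restr I, Ex (wq q2) (fun τ : Restr I => (((rel (rs f (cmp ρ τ))).card - 1 : ℕ) : ℝ)) ≤
      q2 ^ 2 / 2 * ((rel (rs f ρ)).card : ℝ) ^ 2 := by
    intro ρ
    simp only [rs_cmp]
    refine (stage_two hq2p.le hq2le (rs f ρ)).trans (le_of_eq ?_)
    ring
  refine (Ex_mono (wq_nonneg hq1p.le hq1le) h5).trans ?_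
  rw [Ex_smul]
  have h6 := stage_one hK hs hf hk1 hst
  have h7 := mul_le_mul_of_nonneg_left h6 (by positivity : (0 : ℝ) ≤ q2 ^ 2 / 2)
  rw [← hqq]
  have h8 : (0 : ℝ) ≤ s * K ^ 2 * q ^ 2 := by positivity
  nlinarith [h7, hq2sq, h8]

end Pool.Agent.U33.FM
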