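import Pool.Agent.U33.FM.Main

/-!
# Dense sets of inputs
-/

set_option autoImplicit false
set_option linter.unusedSectionVars false

namespace Pool.Agent.U33.FM

open Finset H568R2 H676
open Pool.Agent.TH163.AC3 (ovr)
open Pool.Agent.U33.TS (rep finite_multisets)
open Pool.Agent.U33.AS

variable {I : Type} [Fintype I] [DecidableEq I]

lemma one_free {q : ℝ} (i : I) :
    Ex (wq q) (fun σ : Restr I => if σ i = none then (1 : ℝ) else 0) = q := by
  rw [Ex_resample (wq_sum q) _ i]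
  have : (fun σ : Restr I => ∑ a, wq q a *
      (if Function.update σ i a i = none then (1 : ℝ) else 0)) = fun _ => q := by
    funext σ
    rw [Fintype.sum_option]
    simp [wq]
  rw [this, Ex_const (wq_sum q)]

/-- the variance of the number of free coordinates -/
lemma var_free {q : ℝ} :
    Ex (wq q) (fun σ : Restr I => (((univ.filter fun i => σ i = none).card : ℝ) -
      q * Fintype.card I) ^ 2) ≤ q * Fintype.card I := by
  obtain ⟨n, hn⟩ : ∃ n : ℝ, n = Fintype.card I := ⟨_, rfl⟩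
  rw [← hn]
  have h1 : ∀ σ : Restr I, (((univ.filter fun i => σ i = none).card : ℝ) - q * n) ^ 2 =
      (∑ p ∈ (univ : Finset I).offDiag, if σ p.1 = none ∧ σ p.2 = none then (1 : ℝ) else 0) +
      ((1 - 2 * q * n) * (∑ i : I, if σ i = none then (1 : ℝ) else 0) + (q * n) ^ 2) := by
    intro σ
    obtain ⟨T, hT⟩ : ∃ T, T = (univ : Finset I).filter fun i => σ i = none := ⟨_, rfl⟩
    have h4 : ∑ p ∈ (univ : Finset I).offDiag, (if σ p.1 = none ∧ σ p.2 = none then (1 : ℝ) else 0) =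
        ((T.offDiag.card : ℕ) : ℝ) := by
      rw [← Finset.sum_filter, Finset.sum_const, nsmul_eq_mul, mul_one]
      congr 2
      ext p
      rw [hT]
      simp only [mem_filter, mem_offDiag, mem_univ]
      tauto
    have h5 : ∑ i : I, (if σ i = none then (1 : ℝ) else 0) = (T.card : ℝ) := by
      rw [hT, card_filter]
      push_cast
      rfl
    have h6 : (T.offDiag.card : ℝ) = (T.card : ℝ) ^ 2 - T.card := by
      rw [offDiag_card, Nat.cast_sub (Nat.le_mul_self _)]
      push_cast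
      ring
    rw [h4, h5, h6, ← hT]
    ring
  simp only [h1]
  rw [Ex_add, Ex_add, Ex_smul, Ex_const (wq_sum q), Ex_sum, Ex_sum]
  have h2 : ∑ p ∈ (univ : Finset I).offDiag, Ex (wq q) (fun σ : Restr I =>
      if σ p.1 = none ∧ σ p.2 = none then (1 : ℝ) else 0) = (n ^ 2 - n) * q ^ 2 := by
    rw [Finset.sum_congr rfl fun p hp => two_free (mem_offDiag.1 hp).2.2, Finset.sum_const,
      nsmul_eq_mul, offDiag_card, Nat.cast_sub (Nat.le_mul_self _)]
    push_cast
    rw [card_univ, ← hn]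
    ring
  have h3 : ∑ i : I, Ex (wq q) (fun σ : Restr I => if σ i = none then (1 : ℝ) else 0) = n * q := by
    rw [Finset.sum_congr rfl fun i _ => one_free i, Finset.sum_const, nsmul_eq_mul, card_univ, ← hn]
  rw [h2, h3]
  have hn0 : 0 ≤ n := by rw [hn]; positivity
  have : 0 ≤ n * q ^ 2 := by positivity
  nlinarith

open Classical in
theorem restrict_dense {s : ℕ} {g : Fin s → (I → Bool) → Bool} {S : Fin s → ℕ}
    (hg : ∀ j, Cost (S j) (g j)) (f : (I → Bool) → ℝ) (hf0 : ∀ x, 0 ≤ f x) (hf1 : ∀ x, f x ≤ 1)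
    {δ Λ q n : ℝ} (hn : n = Fintype.card I) (hδ : δ = Ex uw f) (hδ0 : 0 < δ) (hδ1 : δ ≤ 1)
    (hΛ0 : 0 < Λ) (hΛ : (∑ j, (S j : ℝ)) ≤ Λ) (hq0 : 0 < q) (hq1 : q ≤ 1)
    (hΛq : 2 ^ 48 * Λ * q ≤ δ * n) (hqn : 16 ≤ δ * (q * n)) :
    ∃ (L : Finset I) (z : I → Bool) (Hg : Finset (Fin s)),
      (∀ j, j ∉ Hg → One (fun x => g j (ovr Lᶜ z x))) ∧ 3 / 8 * (q * n) ≤ L.card ∧
      (Hg.card : ℝ) ≤ q * n / 2 ^ 12 ∧ δ / 2 ≤ Ex uw (fun x => f (ovr Lᶜ z x)) := by
  obtain ⟨Hg, hHg⟩ : ∃ Hg : Finset (Fin s), Hg = univ.filter fun j => 1 < 2 ^ 36 * (S j : ℝ) * q ^ 2 :=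
    ⟨_, rfl⟩
  have hmem : ∀ j, j ∉ Hg → 2 ^ 36 * (S j : ℝ) * q ^ 2 ≤ 1 := by
    intro j hj
    rw [hHg, mem_filter] at hj
    push Not at hj
    exact hj (mem_univ _)
  have hqn0 : 0 < q * n := by
    by_contra h
    push Not at h
    have : δ * (q * n) ≤ 0 := mul_nonpos_of_nonneg_of_nonpos hδ0.le h
    linarith
  obtain ⟨W, hW⟩ : ∃ W : ℝ, W = 2 ^ 43 * q ^ 2 * Λ := ⟨_, rfl⟩
  have hW0 : 0 < W := by rw [hW]; positivity
  have h2 : Ex (wq q) (fun ρ : Restr I => ∑ j ∈ Hgᶜ, (((rel (rs (g j) ρ)).card - 1 : ℕ) : ℝ)) ≤ W := by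
    rw [Ex_sum]
    refine (Finset.sum_le_sum fun j hj => (hg j).small hq0 (hmem j (mem_compl.1 hj))).trans ?_
    have h3 : ∑ j ∈ Hgᶜ, 2 ^ 43 * (S j : ℝ) * q ^ 2 = 2 ^ 43 * q ^ 2 * ∑ j ∈ Hgᶜ, (S j : ℝ) := by
      rw [Finset.mul_sum]
      exact Finset.sum_congr rfl fun j _ => by ring
    rw [h3, hW]
    apply mul_le_mul_of_nonneg_left _ (by positivity)
    refine le_trans ?_ hΛ
    exact Finset.sum_le_sum_of_subset_of_nonneg (subset_univ _) fun j _ _ => by positivity
  have h1 : Ex (wq q) (fun ρ : Restr I => Ex uw (fun y => f (ov ρ y))) = δ := by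
    rw [exchange q (fun z _ => f z), hδ]
    congr 1
    funext z
    exact Ex_const (bq_sum q) _
  have h3 := var_free (I := I) (q := q)
  rw [← hn] at h3
  obtain ⟨α, hα⟩ : ∃ α : ℝ, α = δ / (4 * W) := ⟨_, rfl⟩
  obtain ⟨β, hβ⟩ : ∃ β : ℝ, β = δ / (4 * (q * n)) := ⟨_, rfl⟩
  have hα0 : 0 < α := by rw [hα]; positivity
  have hβ0 : 0 < β := by rw [hβ]; positivity
  obtain ⟨ρ, hρ⟩ := exists_ge (I := I) (wq_nonneg hq0.le hq1) (wq_sum q)
    (fun ρ : Restr I => Ex uw (fun y => f (ov ρ y)) +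
      ((- α) * (∑ j ∈ Hgᶜ, (((rel (rs (g j) ρ)).card - 1 : ℕ) : ℝ)) +
      (- β) * (((univ.filter fun i => ρ i = none).card : ℝ) - q * n) ^ 2))
  rw [Ex_add, Ex_add, Ex_smul, Ex_smul, h1] at hρ
  obtain ⟨c, hc⟩ : ∃ c : ℝ, c = ∑ j ∈ Hgᶜ, (((rel (rs (g j) ρ)).card - 1 : ℕ) : ℝ) := ⟨_, rfl⟩
  obtain ⟨J, hJ⟩ : ∃ J : Finset I, J = univ.filter fun i => ρ i = none := ⟨_, rfl⟩
  obtain ⟨D, hD⟩ : ∃ D : ℝ, D = Ex uw (fun y => f (ov ρ y)) := ⟨_, rfl⟩
  rw [← hc, ← hJ, ← hD] at hρ
  have hc0 : 0 ≤ c := by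
    rw [hc]
    exact Finset.sum_nonneg fun j _ => Nat.cast_nonneg _
  have hD1 : D ≤ 1 := by
    have := Ex_mono (I := I) (F := fun y => f (ov ρ y)) (G := fun _ => 1) uw_nonneg
      fun y => hf1 _
    rw [Ex_const uw_sum] at this
    rw [hD]
    exact this
  have e1 := mul_le_mul_of_nonneg_left h2 hα0.le
  have e2 := mul_le_mul_of_nonneg_left h3 hβ0.le
  have e3 : α * W = δ / 4 := by rw [hα]; field_simp
  have e4 : β * (q * n) = δ / 4 := by rw [hβ, ← div_div, div_mul_cancel₀ _ hqn0.ne']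
  have e5 : δ / 2 ≤ D + (- α * c + - β * ((J.card : ℝ) - q * n) ^ 2) := by linarith
  have e6 : 0 ≤ α * c := by positivity
  have e7 : 0 ≤ β * ((J.card : ℝ) - q * n) ^ 2 := by positivity
  have hDδ : δ / 2 ≤ D := by linarith
  have hcs : c ≤ q * n / 8 := by
    have h5 : α * c ≤ 1 := by linarith
    have h6 : α * c ≤ α * (q * n / 8) := by
      refine h5.trans ?_
      rw [hα, div_mul_eq_mul_div, le_div_iff₀ (by positivity), one_mul, hW]
      have h7 := mul_le_mul_of_nonneg_right hΛq hq0.le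
      linarith
    exact le_of_mul_le_mul_left h6 hα0
  have hJs : q * n / 2 ≤ J.card := by
    by_contra hcon
    push Not at hcon
    have h5 : β * ((J.card : ℝ) - q * n) ^ 2 ≤ 1 := by linarith
    have h6 : (q * n / 2) ^ 2 < ((J.card : ℝ) - q * n) ^ 2 := by
      have : 0 < q * n / 2 := by positivity
      nlinarith
    have h7 := mul_lt_mul_of_pos_left h6 hβ0
    have h8 : 1 ≤ β * (q * n / 2) ^ 2 := by
      rw [hβ, div_mul_eq_mul_div, le_div_iff₀ (by positivity)]
      have := mul_le_mul_of_nonneg_right hqn hqn0.le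
      nlinarith
    linarith
  have hB : ∀ j, ∃ B : Finset I, B ⊆ rel (rs (g j) ρ) ∧ B.card = (rel (rs (g j) ρ)).card - 1 :=
    fun j => Finset.exists_subset_card_eq (Nat.sub_le _ _)
  choose B hB1 hB2 using hB
  obtain ⟨E, hE⟩ : ∃ E : Finset I, E = Hgᶜ.biUnion B := ⟨_, rfl⟩
  have hEc : (E.card : ℝ) ≤ c := by
    rw [hE, hc, ← Nat.cast_sum]
    refine Nat.cast_le.2 (Finset.card_biUnion_le.trans (le_of_eq ?_))
    exact Finset.sum_congr rfl fun j _ => hB2 j
  obtain ⟨σ, hσ⟩ := exists_fix_av E (fun x => f (ov ρ x))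
  obtain ⟨z, hz⟩ : ∃ z : I → Bool, z = ov ρ (ovr E σ fun _ => false) := ⟨_, rfl⟩
  obtain ⟨L, hL⟩ : ∃ L : Finset I, L = J \ E := ⟨_, rfl⟩
  have hφ : ∀ x, ov ρ (ovr E σ x) = ovr Lᶜ z x := by
    intro x
    funext i
    by_cases h1 : ρ i = none
    · by_cases h3 : i ∈ E
      · have hiL : i ∈ Lᶜ := by simp [hL, h3]
        simp [ov, ovr, h1, h3, hz, hiL]
      · have hiL : i ∉ Lᶜ := by simp [hL, h3, hJ, h1]
        simp only [ov, ovr, h1, h3, if_neg hiL]
        simp
    · have hiL : i ∈ Lᶜ := by simp [hL, h1, hJ]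
      obtain ⟨c, hc⟩ := Option.ne_none_iff_exists'.1 h1
      simp [ov, ovr, hc, hz, hiL]
  refine ⟨L, z, Hg, ?_, ?_, ?_, ?_⟩
  · intro j hj
    have h3 := dep_ovr (dep_rel (rs (g j) ρ)) E σ
    have h4 : B j ⊆ E := by
      rw [hE]
      exact Finset.subset_biUnion_of_mem B (mem_compl.2 hj)
    have h5 := one_of_dep (f := fun x => rs (g j) ρ (ovr E σ x)) h3 (by
      calc (rel (rs (g j) ρ) \ E).card ≤ (rel (rs (g j) ρ) \ B j).card :=
            card_le_card (sdiff_subset_sdiff (Finset.Subset.refl _) h4)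
        _ = (rel (rs (g j) ρ)).card - (B j).card := card_sdiff_of_subset (hB1 j)
        _ ≤ 1 := by rw [hB2 j]; omega)
    have h6 : (fun x => rs (g j) ρ (ovr E σ x)) = fun x => g j (ovr Lᶜ z x) := by
      funext x
      show g j (ov ρ (ovr E σ x)) = _
      rw [hφ]
    rw [h6] at h5
    exact h5
  · have h5 : (J.card : ℝ) ≤ L.card + E.card := by
      have : J.card ≤ L.card + E.card := by
        rw [hL]
        have := Finset.card_le_card_sdiff_add_card (s := J) (t := E)
        omega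
      exact_mod_cast this
    linarith
  · have h8 : (Hg.card : ℝ) ≤ 2 ^ 36 * q ^ 2 * ∑ j ∈ Hg, (S j : ℝ) := by
      rw [Finset.card_eq_sum_ones, Nat.cast_sum, Finset.mul_sum]
      refine Finset.sum_le_sum fun j hj => ?_
      rw [hHg, mem_filter] at hj
      have := hj.2
      push_cast
      linarith
    have h9 : ∑ j ∈ Hg, (S j : ℝ) ≤ Λ := le_trans
      (Finset.sum_le_sum_of_subset_of_nonneg (subset_univ _) fun j _ _ => by positivity) hΛ
    have h10 := mul_le_mul_of_nonneg_left h9 (by positivity : 0 ≤ 2 ^ 36 * q ^ 2)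
    have h11 := mul_le_mul_of_nonneg_right hΛq hq0.le
    have h12 : δ * n * q ≤ 1 * (q * n) := by
      have := mul_le_mul_of_nonneg_right hδ1 hqn0.le
      linarith
    have h13 : 2 ^ 36 * q ^ 2 * Λ = (2 ^ 48 * Λ * q * q) / 2 ^ 12 := by
      norm_num
      ring
    rw [h13] at h10
    refine h8.trans (h10.trans ?_)
    apply div_le_div_of_nonneg_right _ (by positivity)
    linarith
  · have h7 : (fun x => f (ov ρ (ovr E σ x))) = fun x => f (ovr Lᶜ z x) := by
      funext x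
      rw [hφ]
    rw [h7, ← hD] at hσ
    exact hDδ.trans hσ

/-- the pigeonhole step for dense sets of inputs, with exceptional bits -/
theorem rep_of_dense' {A : Set ℕ} [DecidablePred (· ∈ A)] {h s : ℕ} (hh : 2 ≤ h) (c : Fin s → ℤ)
    (g : Fin s → (I → Bool) → Bool) (F : (I → Bool) → ℕ) (hF : Weighted c g F)
    (hinj : Function.Injective F) (L : Finset I) (z : I → Bool) (Hg : Finset (Fin s))
    (hone : ∀ j, j ∉ Hg → One (fun x => g j (ovr Lᶜ z x)))
    (hpos : 0 < Ex uw (fun x => if F (ovr Lᶜ z x) ∈ A then (1 : ℝ) else 0)) :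
    ∃ x, (∀ N, (∀ y, F y < N) → x < h * N) ∧
      (4 / 3 : ℝ) ^ L.card * (Ex uw (fun x => if F (ovr Lᶜ z x) ∈ A then (1 : ℝ) else 0)) ^ 2 ≤
        3 ^ Hg.card * (2 * rep A h x) := by
  classical
  obtain ⟨P, hP⟩ : ∃ P : Finset (I → Bool),
      P = univ.filter fun x => ovr Lᶜ z x = x ∧ F x ∈ A := ⟨_, rfl⟩
  have hidem : ∀ x : I → Bool, ovr Lᶜ z (ovr Lᶜ z x) = ovr Lᶜ z x := by
    intro x
    funext i
    unfold ovr
    by_cases hi : i ∈ Lᶜ <;> simp [hi]
  -- the number of good points of the subcube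
  have hcard : (2 : ℝ) ^ L.card * Ex uw (fun x => if F (ovr Lᶜ z x) ∈ A then (1 : ℝ) else 0) ≤
      P.card := by
    have h1 : (univ.filter fun x : I → Bool => F (ovr Lᶜ z x) ∈ A).card ≤
        P.card * 2 ^ (Lᶜ).card := by
      have h2 : (univ.filter fun x : I → Bool => F (ovr Lᶜ z x) ∈ A).card ≤
          (P ×ˢ (univ : Finset ({i // i ∈ Lᶜ} → Bool))).card := by
        apply card_le_card_of_injOn fun x => (ovr Lᶜ z x, fun i => x i.1)
        · intro x hx
          rw [mem_coe, mem_filter] at hx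
          rw [mem_coe, mem_product]
          refine ⟨?_, mem_univ _⟩
          rw [hP, mem_filter]
          exact ⟨mem_univ _, hidem x, hx.2⟩
        · intro x _ y _ hxy
          obtain ⟨h3, h4⟩ := Prod.mk.inj hxy
          funext i
          by_cases hi : i ∈ Lᶜ
          · exact congrFun h4 ⟨i, hi⟩
          · have := congrFun h3 i
            unfold ovr at this
            rwa [if_neg hi, if_neg hi] at this
      refine h2.trans (le_of_eq ?_)
      rw [card_product, card_univ, Fintype.card_fun, Fintype.card_bool, Fintype.card_coe]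
    have h3 : Ex uw (fun x : I → Bool => if F (ovr Lᶜ z x) ∈ A then (1 : ℝ) else 0) =
        (univ.filter fun x : I → Bool => F (ovr Lᶜ z x) ∈ A).card / 2 ^ Fintype.card I := by
      unfold Ex uw
      rw [card_filter]
      push_cast
      rw [sum_div]
      refine sum_congr rfl fun x _ => ?_
      rw [prod_const, card_univ, one_div, inv_pow]
      ring
    have h4 : (2 : ℝ) ^ Fintype.card I = 2 ^ L.card * 2 ^ (Lᶜ).card := by
      rw [← pow_add, card_add_card_compl]
    rw [h3, h4]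
    have h5 : ((univ.filter fun x : I → Bool => F (ovr Lᶜ z x) ∈ A).card : ℝ) ≤
        P.card * 2 ^ (Lᶜ).card := by exact_mod_cast h1
    rw [← mul_div_assoc, div_le_iff₀ (by positivity)]
    have h6 := mul_le_mul_of_nonneg_left h5 (by positivity : (0 : ℝ) ≤ 2 ^ L.card)
    linarith
  have hPpos : 0 < P.card := by
    have : (0 : ℝ) < P.card := lt_of_lt_of_le (by positivity) hcard
    exact_mod_cast this
  obtain ⟨x0, hx0⟩ := card_pos.1 hPpos
  have hx0' : F x0 ∈ A := by
    rw [hP, mem_filter] at hx0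
    exact hx0.2.2
  -- sums depend on the pattern only
  have hfix : ∀ x ∈ P, ovr Lᶜ z x = x := by
    intro x hx
    rw [hP, mem_filter] at hx
    exact hx.2.1
  obtain ⟨pat, hpat⟩ : ∃ pat : (I → Bool) × (I → Bool) → ({i // i ∈ L} → Fin 3),
      pat = fun p i => ⟨(p.1 i.1).toNat + (p.2 i.1).toNat, by
        have h1 := Bool.toNat_le (p.1 i.1)
        have h2 := Bool.toNat_le (p.2 i.1)
        omega⟩ := ⟨_, rfl⟩
  obtain ⟨pat', hpat'⟩ : ∃ pat' : (I → Bool) × (I → Bool) → ({j // j ∈ Hg} → Fin 3),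
      pat' = fun p j => ⟨(g j.1 p.1).toNat + (g j.1 p.2).toNat, by
        have h1 := Bool.toNat_le (g j.1 p.1)
        have h2 := Bool.toNat_le (g j.1 p.2)
        omega⟩ := ⟨_, rfl⟩
  have hsum : ∀ p ∈ P ×ˢ P, ∀ p' ∈ P ×ˢ P, pat p = pat p' → pat' p = pat' p' →
      F p.1 + F p.2 = F p'.1 + F p'.2 := by
    intro p hp p' hp' he he'
    rw [mem_product] at hp hp'
    have hpt : ∀ i, (p.1 i = p'.1 i ∧ p.2 i = p'.2 i) ∨ (p.1 i = p'.2 i ∧ p.2 i = p'.1 i) := by
      intro i
      by_cases hi : i ∈ L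
      · apply two_case
        have := congrArg Fin.val (congrFun he ⟨i, hi⟩)
        rw [hpat] at this
        exact this
      · have hc : i ∈ Lᶜ := by simp [hi]
        have hz : ∀ x ∈ P, x i = z i := by
          intro x hx
          have := congrFun (hfix x hx) i
          unfold ovr at this
          rw [if_pos hc] at this
          exact this.symm
        left
        exact ⟨(hz _ hp.1).trans (hz _ hp'.1).symm, (hz _ hp.2).trans (hz _ hp'.2).symm⟩
    have h1 : ((F p.1 + F p.2 : ℕ) : ℤ) = ((F p'.1 + F p'.2 : ℕ) : ℤ) := by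
      push_cast
      rw [hF, hF, hF, hF, ← Finset.sum_add_distrib, ← Finset.sum_add_distrib]
      refine Finset.sum_congr rfl fun j _ => ?_
      have h2 : (g j p.1).toNat + (g j p.2).toNat = (g j p'.1).toNat + (g j p'.2).toNat := by
        by_cases hj : j ∈ Hg
        · have := congrArg Fin.val (congrFun he' ⟨j, hj⟩)
          rw [hpat'] at this
          exact this
        · have e : ∀ x ∈ P, g j x = (fun x => g j (ovr Lᶜ z x)) x := by
            intro x hx
            show g j x = g j (ovr Lᶜ z x)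
            rw [hfix x hx]
          rw [e _ hp.1, e _ hp.2, e _ hp'.1, e _ hp'.2]
          rcases hone j hj with h | ⟨i, h⟩
          · rw [h p.1 p'.1, h p.2 p'.2]
          · rcases hpt i with ⟨h3, h4⟩ | ⟨h3, h4⟩
            · rw [h p.1 p'.1 h3, h p.2 p'.2 h4]
            · rw [h p.1 p'.2 h3, h p.2 p'.1 h4, add_comm]
      have h3 : ((g j p.1).toNat : ℤ) + ((g j p.2).toNat : ℤ) =
          ((g j p'.1).toNat : ℤ) + ((g j p'.2).toNat : ℤ) := by exact_mod_cast h2
      rw [← mul_add, h3, mul_add]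
    exact_mod_cast h1
  -- pigeonhole
  obtain ⟨π, -, hπ⟩ : ∃ π ∈ (univ : Finset (({i // i ∈ L} → Fin 3) × ({j // j ∈ Hg} → Fin 3))),
      ((P ×ˢ P).card : ℝ) / (3 ^ L.card * 3 ^ Hg.card) ≤
        ((P ×ˢ P).filter fun p => (pat p, pat' p) = π).card := by
    apply Finset.exists_le_card_fiber_of_nsmul_le_card_of_maps_to (fun p _ => mem_univ _)
      ⟨(fun _ => 0, fun _ => 0), mem_univ _⟩
    rw [nsmul_eq_mul, card_univ, Fintype.card_prod, Fintype.card_fun, Fintype.card_fun,
      Fintype.card_fin, Fintype.card_coe, Fintype.card_coe]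
    push_cast
    rw [mul_div_cancel₀ _ (by positivity)]
  obtain ⟨R, hR⟩ : ∃ R, R = (P ×ˢ P).filter fun p => (pat p, pat' p) = π := ⟨_, rfl⟩
  rw [← hR] at hπ
  have hRpos : 0 < R.card := by
    have h1 : (0 : ℝ) < ((P ×ˢ P).card : ℝ) / (3 ^ L.card * 3 ^ Hg.card) := by
      rw [card_product]
      have : 0 < P.card * P.card := Nat.mul_pos hPpos hPpos
      have h2 : (0 : ℝ) < ((P.card * P.card : ℕ) : ℝ) := by exact_mod_cast this
      positivity
    have : (0 : ℝ) < R.card := lt_of_lt_of_le h1 hπ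
    exact_mod_cast this
  obtain ⟨p0, hp0⟩ := card_pos.1 hRpos
  have hRm : ∀ p ∈ R, p ∈ P ×ˢ P ∧ F p.1 + F p.2 = F p0.1 + F p0.2 := by
    intro p hp
    rw [hR, mem_filter] at hp hp0
    have h1 := hp.2.trans hp0.2.symm
    exact ⟨hp.1, hsum p hp.1 p0 hp0.1 (Prod.mk.inj h1).1 (Prod.mk.inj h1).2⟩
  refine ⟨F p0.1 + F p0.2 + (h - 2) * F x0, ?_, ?_⟩
  · intro N hN
    have h1 := hN p0.1
    have h2 := hN p0.2
    have h4 : (h - 2) * F x0 ≤ (h - 2) * N := Nat.mul_le_mul_left _ (hN x0).le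
    have h5 : h * N = 2 * N + (h - 2) * N := by
      rw [← add_mul]
      congr 1
      omega
    omega
  · have h1 : R.card ≤ 2 * rep A h (F p0.1 + F p0.2 + (h - 2) * F x0) := by
      have h2 : R.card = (R.image fun p => (F p.1, F p.2)).card := by
        rw [card_image_of_injective]
        intro p q hpq
        obtain ⟨h3, h4⟩ := Prod.mk.inj hpq
        exact Prod.ext (hinj h3) (hinj h4)
      rw [h2]
      apply rep_of_ordered hh _ _ _ hx0'
      intro q hq
      obtain ⟨p, hp, rfl⟩ := mem_image.1 hq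
      obtain ⟨h3, h4⟩ := hRm p hp
      rw [mem_product, hP, mem_filter, mem_filter] at h3
      exact ⟨h3.1.2.2, h3.2.2.2, h4⟩
    have h2 : (R.card : ℝ) ≤ 2 * rep A h (F p0.1 + F p0.2 + (h - 2) * F x0) := by
      exact_mod_cast h1
    have h6 := hπ.trans h2
    rw [div_le_iff₀ (by positivity), card_product] at h6
    push_cast at h6
    have h3 : (0 : ℝ) ≤ (2 : ℝ) ^ L.card *
        Ex uw (fun x => if F (ovr Lᶜ z x) ∈ A then (1 : ℝ) else 0) := by positivity
    have h4 := mul_self_le_mul_self h3 hcard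
    have h5 : (4 / 3 : ℝ) ^ L.card * 3 ^ L.card = 2 ^ L.card * 2 ^ L.card := by
      rw [← mul_pow, ← mul_pow]
      norm_num
    have h7 : (0 : ℝ) < 3 ^ L.card := by positivity
    obtain ⟨e, he⟩ : ∃ e, e = Ex uw (fun x => if F (ovr Lᶜ z x) ∈ A then (1 : ℝ) else 0) := ⟨_, rfl⟩
    rw [← he] at h4 ⊢
    have h8 : (4 / 3 : ℝ) ^ L.card * e ^ 2 * 3 ^ L.card = 2 ^ L.card * e * (2 ^ L.card * e) := by
      linear_combination (e ^ 2) * h5
    have h9 : (4 / 3 : ℝ) ^ L.card * e ^ 2 * 3 ^ L.card ≤ 3 ^ Hg.card *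
        (2 * rep A h (F p0.1 + F p0.2 + (h - 2) * F x0)) * 3 ^ L.card := by
      rw [h8]
      refine h4.trans (h6.trans (le_of_eq ?_))
      ring
    exact le_of_mul_le_mul_right h9 h7

open Classical in
/-- **Dense sets of inputs.** -/
theorem cheap_dense {m h : ℕ} (hh : 2 ≤ h) {A : Set ℕ} {F : (Fin m → Bool) → ℕ} {Λ δ : ℝ}
    (hF : Cheap m Λ F) (hinj : Function.Injective F)
    (hδ : δ = ((univ.filter fun x => F x ∈ A).card : ℝ) / 2 ^ m) (hδ0 : 0 < δ) :
    ∃ x, (∀ N, (∀ y, F y < N) → x < h * N) ∧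
      (δ * m) ^ 2 ≤ 2 ^ 52 * Λ * (1 + Real.log (8 * rep A h x / δ ^ 2)) := by
  obtain ⟨s, c, g, S, hg, hΛ, hF⟩ := hF
  have hms : m ≤ s := by
    have h1 : Function.Injective fun (x : Fin m → Bool) (j : Fin s) => g j x := by
      intro x y hxy
      apply hinj
      have : (F x : ℤ) = F y := by
        rw [hF, hF]
        exact sum_congr rfl fun j _ => by rw [show g j x = g j y from congrFun hxy j]
      exact_mod_cast this
    have h2 := Fintype.card_le_of_injective _ h1
    simp only [Fintype.card_fun, Fintype.card_bool, Fintype.card_fin] at h2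
    exact (Nat.pow_le_pow_iff_right (by norm_num)).1 h2
  have hsS : (s : ℝ) ≤ ∑ j, (S j : ℝ) := by
    calc (s : ℝ) = ∑ _j : Fin s, (1 : ℝ) := by simp
      _ ≤ _ := Finset.sum_le_sum fun j _ => by exact_mod_cast (hg j).pos
  have hmΛ : (m : ℝ) ≤ Λ := by
    have : (m : ℝ) ≤ s := by exact_mod_cast hms
    linarith
  have hδ1 : δ ≤ 1 := by
    rw [hδ, div_le_one (by positivity)]
    have : (univ.filter fun x => F x ∈ A).card ≤ 2 ^ m := by
      refine (card_le_univ _).trans ?_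
      simp
    exact_mod_cast this
  obtain ⟨y0, hy0⟩ : ∃ y, F y ∈ A := by
    by_contra hcon
    push Not at hcon
    have : (univ.filter fun x => F x ∈ A) = ∅ := filter_false_of_mem fun x _ => hcon x
    rw [this] at hδ
    simp at hδ
    linarith
  have hlogpos : ∀ x, (1 : ℝ) ≤ rep A h x → 0 ≤ Real.log (8 * rep A h x / δ ^ 2) := by
    intro x hx
    apply Real.log_nonneg
    rw [le_div_iff₀ (by positivity)]
    have : δ ^ 2 ≤ 1 := pow_le_one₀ hδ0.le hδ1
    linarith
  by_cases hcase : 2 ^ 52 * Λ ≤ (δ * m) ^ 2 ∧ 0 < m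
  · obtain ⟨hcase, hm0⟩ := hcase
    have hm : (0 : ℝ) < m := by exact_mod_cast hm0
    have hΛ0 : 0 < Λ := by linarith
    obtain ⟨q, hq⟩ : ∃ q : ℝ, q = δ * m / (2 ^ 48 * Λ) := ⟨_, rfl⟩
    have hq0 : 0 < q := by rw [hq]; positivity
    have hq1 : q ≤ 1 := by
      rw [hq, div_le_one (by positivity)]
      have := mul_le_mul_of_nonneg_right hδ1 hm.le
      linarith
    have hqΛ : 2 ^ 48 * Λ * q = δ * m := by
      rw [hq]
      field_simp
    have hqm : 16 ≤ δ * (q * m) := by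
      rw [hq, div_mul_eq_mul_div, ← mul_div_assoc, le_div_iff₀ (by positivity)]
      have : δ * (δ * m * m) = (δ * m) ^ 2 := by ring
      rw [this]
      linarith
    have hEx : δ = Ex uw (fun x : Fin m → Bool => if F x ∈ A then (1 : ℝ) else 0) := by
      rw [hδ, Ex_uw, Fintype.card_fin, card_filter]
      push_cast
      rfl
    obtain ⟨L, z, Hg, hone, hLc, hHg, hd⟩ := restrict_dense hg
      (fun x => if F x ∈ A then (1 : ℝ) else 0) (fun x => by split_ifs <;> norm_num)
      (fun x => by split_ifs <;> norm_num) (n := m) (by simp) hEx hδ0 hδ1 hΛ0 hΛ hq0 hq1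
      hqΛ.le hqm
    obtain ⟨D, hD⟩ : ∃ D : ℝ, D = Ex uw (fun x => if F (ovr Lᶜ z x) ∈ A then (1 : ℝ) else 0) :=
      ⟨_, rfl⟩
    have hd' : δ / 2 ≤ D := by rw [hD]; exact hd
    have hDpos : 0 < D := by linarith
    obtain ⟨x, hx1, hx2⟩ := rep_of_dense' hh c g F hF hinj L z Hg hone (by rw [← hD]; exact hDpos)
    rw [← hD] at hx2
    refine ⟨x, hx1, ?_⟩
    have hr : (0 : ℝ) < rep A h x := by
      by_contra hcon
      push Not at hcon
      have h1 : (0 : ℝ) < (4 / 3) ^ L.card * D ^ 2 := by positivity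
      have h2 : (3 : ℝ) ^ Hg.card * (2 * rep A h x) ≤ 0 :=
        mul_nonpos_of_nonneg_of_nonpos (by positivity) (by linarith)
      linarith
    have hr1 : (1 : ℝ) ≤ rep A h x := by
      have : 0 < rep A h x := by exact_mod_cast hr
      exact_mod_cast this
    have h1 : (4 / 3 : ℝ) ^ L.card * (δ / 2) ^ 2 ≤ 3 ^ Hg.card * (2 * rep A h x) := by
      refine le_trans ?_ hx2
      apply mul_le_mul_of_nonneg_left _ (by positivity)
      exact pow_le_pow_left₀ (by positivity) hd' 2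
    have h2 := Real.log_le_log (by positivity) h1
    rw [Real.log_mul (by positivity) (by positivity), Real.log_mul (by positivity) (by positivity),
      Real.log_pow, Real.log_pow, Real.log_pow] at h2
    have h3 : (1 : ℝ) / 4 ≤ Real.log (4 / 3) := by
      have h4 : Real.log (3 / 4) ≤ 3 / 4 - 1 := Real.log_le_sub_one_of_pos (by norm_num)
      have h5 : Real.log (4 / 3) = - Real.log (3 / 4) := by
        rw [← Real.log_inv]
        norm_num
      rw [h5]
      linarith
    have h4 : Real.log 3 ≤ 2 := by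
      have := Real.log_le_sub_one_of_pos (by norm_num : (0 : ℝ) < 3)
      linarith
    have h5 : Real.log (8 * rep A h x / δ ^ 2) = Real.log (2 * rep A h x) - Real.log ((δ / 2) ^ 2) := by
      rw [← Real.log_div (by positivity) (by positivity)]
      congr 1
      field_simp
      ring
    have h6 : 3 / 8 * (q * m) * (1 / 4) ≤ L.card * Real.log (4 / 3) :=
      mul_le_mul hLc h3 (by norm_num) (by positivity)
    have h7 : (Hg.card : ℝ) * Real.log 3 ≤ q * m / 2 ^ 12 * 2 :=
      mul_le_mul hHg h4 (Real.log_nonneg (by norm_num)) (by positivity)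
    have hqm0 : 0 < q * m := by positivity
    have h8 : q * m / 16 ≤ Real.log (8 * rep A h x / δ ^ 2) := by
      rw [h5, Real.log_pow]
      linarith
    have h9 : δ * m * m ≤ 2 ^ 52 * Λ * Real.log (8 * rep A h x / δ ^ 2) := by
      have h10 := mul_le_mul_of_nonneg_left h8 (by positivity : 0 ≤ 2 ^ 52 * Λ)
      have h11 : 2 ^ 52 * Λ * (q * m / 16) = δ * m * m := by
        rw [← hqΛ]
        ring
      rw [h11] at h10
      exact h10
    have h12 := hlogpos x hr1
    have h13 : (δ * m) ^ 2 ≤ δ * m * m := by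
      have : (δ * m) ^ 2 = δ * (δ * m * m) := by ring
      rw [this]
      have h14 : 0 ≤ δ * m * m := by positivity
      nlinarith
    have h15 : 0 < 2 ^ 52 * Λ := by positivity
    linarith
  · refine ⟨h * F y0, fun N hN => Nat.mul_lt_mul_of_pos_left (hN _) (by omega), ?_⟩
    have h1 := rep_one h _ hy0
    have h2 : (1 : ℝ) ≤ rep A h (h * F y0) := by exact_mod_cast h1
    have h3 := hlogpos _ h2
    have hΛ0 : 0 ≤ Λ := by
      have : (0 : ℝ) ≤ m := Nat.cast_nonneg m
      linarith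
    have h4 : (δ * m) ^ 2 ≤ 2 ^ 52 * Λ := by
      by_cases hm : 0 < m
      · push Not at hcase
        by_contra hcon
        push Not at hcon
        exact absurd hm (by have := hcase hcon.le; omega)
      · have : m = 0 := by omega
        subst this
        simp
        exact hΛ0
    have h5 : 0 ≤ 2 ^ 52 * Λ * Real.log (8 * rep A h (h * F y0) / δ ^ 2) :=
      mul_nonneg (mul_nonneg (by norm_num) hΛ0) h3
    linarith

end Pool.Agent.U33.FM
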