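import Pool.Agent.U33.FM.Main

/-!
# Formulas over decision trees
-/

set_option autoImplicit false
set_option linter.unusedSectionVars false

namespace Pool.Agent.U33.FM

open Finset H568R2 H676
open Pool.Agent.TH163.AC3 (HasDT hasDT_const)
open Pool.Agent.U33.AS

/-- `f` has a formula with `L` leaves and AND and OR gates of fan-in two, the leaves of which are
decision trees of depth at most `K` (for `K = 1`: variables, negated variables and constants) -/
inductive Formula {m : ℕ} (K : ℕ) : ℕ → ((Fin m → Bool) → Bool) → Prop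
  | leaf {f : (Fin m → Bool) → Bool} : HasDT K f → Formula K 1 f
  | and {a b : ℕ} {f g : (Fin m → Bool) → Bool} : Formula K a f → Formula K b g →
      Formula K (a + b) (fun x => f x && g x)
  | or {a b : ℕ} {f g : (Fin m → Bool) → Bool} : Formula K a f → Formula K b g →
      Formula K (a + b) (fun x => f x || g x)

section
variable {I : Type} [Fintype I] [DecidableEq I]

lemma deg_var (i : I) : Deg 1 (br (fun x : I → Bool => x i)) := by
  apply deg_of_junta
  exact ⟨{i}, by simp, fun x y h => h i (by simp)⟩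

lemma deg_tree (T : TH163.AC3.Tree I) : Deg T.depth (br (fun x => T.eval x)) := by
  induction T with
  | leaf b =>
    have h : br (fun x : I → Bool => (TH163.AC3.Tree.leaf b : TH163.AC3.Tree I).eval x) = fun _ => if b then (1 : ℝ) else 0 := by
      funext x
      rfl
    rw [h]
    exact Deg.const _
  | node i a b iha ihb =>
    have h1 : br (fun x => (TH163.AC3.Tree.node i a b).eval x) = fun x =>
        br (fun x : I → Bool => x i) x * br (fun x => b.eval x) x +
          (br (fun x => a.eval x) x +
            (-1) * (br (fun x : I → Bool => x i) x * br (fun x => a.eval x) x)) := by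
      funext x
      have e : (TH163.AC3.Tree.node i a b).eval x = if x i = true then b.eval x else a.eval x := rfl
      show (if (TH163.AC3.Tree.node i a b).eval x = true then (1 : ℝ) else 0) =
        (if x i = true then (1 : ℝ) else 0) * (if b.eval x = true then (1 : ℝ) else 0) +
          ((if a.eval x = true then (1 : ℝ) else 0) +
            (-1) * ((if x i = true then (1 : ℝ) else 0) * (if a.eval x = true then (1 : ℝ) else 0)))
      rw [e]
      by_cases hx : x i = true
      · rw [if_pos hx, if_pos hx]; ring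
      · rw [if_neg hx, if_neg hx]; ring
    rw [h1]
    have h2 : (TH163.AC3.Tree.node i a b).depth = max a.depth b.depth + 1 := rfl
    rw [h2]
    have ha : Deg (max a.depth b.depth) (br (fun x => a.eval x)) := iha.mono (le_max_left _ _)
    have hb : Deg (max a.depth b.depth) (br (fun x => b.eval x)) := ihb.mono (le_max_right _ _)
    refine Deg.add ?_ (Deg.add (ha.mono (by omega)) (Deg.smul _ ?_))
    · exact ((deg_var i).mul hb).mono (by omega)
    · exact ((deg_var i).mul ha).mono (by omega)

lemma deg_of_dt {K : ℕ} {f : (I → Bool) → Bool} (h : HasDT K f) : Deg K (br f) := by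
  obtain ⟨T, hT, he⟩ := h
  have : (fun x => T.eval x) = f := funext he
  rw [← this]
  exact (deg_tree T).mono hT

end

lemma Formula.pos {m K L : ℕ} {f : (Fin m → Bool) → Bool} (h : Formula K L f) : 1 ≤ L := by
  induction h with
  | leaf _ => exact le_refl 1
  | and _ _ h1 h2 => omega
  | or _ _ h1 h2 => omega

lemma Formula.adv {m K L : ℕ} {f : (Fin m → Bool) → Bool} (h : Formula K L f) : Adv K L f := by
  induction h with
  | leaf h => exact Adv.leaf (deg_of_dt h)
  | and _ _ h1 h2 => exact h1.and h2
  | or ha hb h1 h2 => exact Adv.or ha.pos hb.pos h1 h2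

lemma Formula.cost {m K L : ℕ} {f : (Fin m → Bool) → Bool} (hK : 1 ≤ K) (h : Formula K L f) :
    Cost (L * K ^ 2) f := ⟨K, L, hK, h.pos, h.adv, le_refl _⟩

/-- `F` is a sum of integers times bits, which have formulas with `L j` leaves, decision trees of
depth at most `K j`, where the sum of the `L j * (K j) ^ 2` is at most `Λ` -/
def Formulas (m : ℕ) (Λ : ℝ) (F : (Fin m → Bool) → ℕ) : Prop :=
  ∃ (s : ℕ) (c : Fin s → ℤ) (g : Fin s → (Fin m → Bool) → Bool) (L K : Fin s → ℕ),
    (∀ j, 1 ≤ K j ∧ Formula (K j) (L j) (g j)) ∧ (∑ j, (L j : ℝ) * (K j : ℝ) ^ 2) ≤ Λ ∧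
      Weighted c g F

theorem Formulas.cheap {m : ℕ} {Λ : ℝ} {F : (Fin m → Bool) → ℕ} (h : Formulas m Λ F) :
    Cheap m Λ F := by
  obtain ⟨s, c, g, L, K, h1, h2, h3⟩ := h
  refine ⟨s, c, g, fun j => L j * K j ^ 2, fun j => (h1 j).2.cost (h1 j).1, ?_, h3⟩
  refine le_trans (le_of_eq ?_) h2
  push_cast
  rfl

/-- formulas indexed by any finite type, all leaves are literals or constants -/
lemma formulas_of {m : ℕ} {ι : Type} [Fintype ι] (c : ι → ℤ) (g : ι → (Fin m → Bool) → Bool)
    (L : ι → ℕ) (hg : ∀ j, Formula 1 (L j) (g j)) {Λ : ℝ} (hL : ((∑ j, L j : ℕ) : ℝ) ≤ Λ)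
    {F : (Fin m → Bool) → ℕ} (hF : ∀ x, (F x : ℤ) = ∑ j, c j * ((g j x).toNat : ℤ)) :
    Formulas m Λ F := by
  obtain ⟨e⟩ : Nonempty (ι ≃ Fin (Fintype.card ι)) := ⟨Fintype.equivFin ι⟩
  refine ⟨Fintype.card ι, fun j => c (e.symm j), fun j => g (e.symm j), fun j => L (e.symm j),
    fun _ => 1, fun j => ⟨le_refl 1, hg _⟩, ?_, fun x => ?_⟩
  · refine le_trans (le_of_eq ?_) hL
    simp only [Nat.cast_one, one_pow, mul_one]
    rw [Nat.cast_sum]
    exact Equiv.sum_comp e.symm (fun j => (L j : ℝ))
  · rw [hF]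
    exact (Equiv.sum_comp e.symm (fun j => c j * ((g j x).toNat : ℤ))).symm

lemma formula_lit {m : ℕ} (i : Fin m) : Formula 1 1 (fun x => x i) := by
  apply Formula.leaf
  refine ⟨TH163.AC3.Tree.node i (TH163.AC3.Tree.leaf false) (TH163.AC3.Tree.leaf true),
    by simp [TH163.AC3.Tree.depth], fun x => ?_⟩
  cases hx : x i <;> simp [TH163.AC3.Tree.eval, hx]

lemma formula_const {m : ℕ} (b : Bool) : Formula (m := m) 1 1 (fun _ => b) :=
  Formula.leaf (hasDT_const b (fun _ => rfl) 1)

end Pool.Agent.U33.FM
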