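import Pool.Agent.U33.FM.Cost
import Pool.Agent.U33.AS.Main

/-!
# Sums of bits with small adversary bounds
-/

set_option autoImplicit false
set_option linter.unusedSectionVars false

namespace Pool.Agent.U33.FM

open Finset H568R2 H676
open Pool.Agent.TH163.AC3 (ovr)
open Pool.Agent.U33.TS (rep finite_multisets)
open Pool.Agent.U33.AS

variable {I : Type} [Fintype I] [DecidableEq I]

/-- the bit `f` has a dual solution of size `s` of the adversary bound over queries of degree at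
most `K`, where `s K ^ 2 ≤ C` -/
def Cost (C : ℕ) (f : (I → Bool) → Bool) : Prop :=
  ∃ K s : ℕ, 1 ≤ K ∧ 1 ≤ s ∧ Adv K s f ∧ s * K ^ 2 ≤ C

/-- `F` is a sum of integers times bits of total cost at most `Λ` -/
def Cheap (m : ℕ) (Λ : ℝ) (F : (Fin m → Bool) → ℕ) : Prop :=
  ∃ (s : ℕ) (c : Fin s → ℤ) (g : Fin s → (Fin m → Bool) → Bool) (C : Fin s → ℕ),
    (∀ j, Cost (C j) (g j)) ∧ (∑ j, (C j : ℝ)) ≤ Λ ∧ Weighted c g F

lemma Cost.pos {C : ℕ} {f : (I → Bool) → Bool} (h : Cost C f) : 1 ≤ C := by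
  obtain ⟨K, s, hK, hs, -, h⟩ := h
  refine le_trans ?_ h
  have : 1 ≤ K ^ 2 := Nat.one_le_pow _ _ hK
  nlinarith

open Classical in
lemma Cost.small {C : ℕ} {f : (I → Bool) → Bool} (h : Cost C f) {q : ℝ} (hq0 : 0 < q)
    (hq : 2 ^ 36 * (C : ℝ) * q ^ 2 ≤ 1) :
    Ex (wq q) (fun ρ : Restr I => (((rel (rs f ρ)).card - 1 : ℕ) : ℝ)) ≤ 2 ^ 43 * (C : ℝ) * q ^ 2 := by
  obtain ⟨K, s, hK, hs, h, hC⟩ := h
  have hC' : (s : ℝ) * K ^ 2 ≤ C := by exact_mod_cast hC
  have h1 : (s : ℝ) * K ^ 2 * q ^ 2 ≤ C * q ^ 2 := mul_le_mul_of_nonneg_right hC' (sq_nonneg q)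
  refine (cost hK hs h hq0 (by linarith)).trans (by linarith)

lemma one_of_dep {f : (I → Bool) → Bool} {R : Finset I} (hf : DepOn f R) (h : R.card ≤ 1) :
    One f := by
  rcases Nat.eq_zero_or_pos R.card with h0 | h0
  · left
    rw [card_eq_zero] at h0
    intro x y
    exact hf x y (by simp [h0])
  · obtain ⟨i, hi⟩ := card_eq_one.1 (by omega : R.card = 1)
    right
    refine ⟨i, fun x y hxy => hf x y ?_⟩
    intro j hj
    rw [hi, mem_singleton] at hj
    rw [hj]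
    exact hxy

lemma dep_ovr {f : (I → Bool) → Bool} {R : Finset I} (hf : DepOn f R) (B : Finset I)
    (σ : I → Bool) : DepOn (fun x => f (ovr B σ x)) (R \ B) := by
  intro x y hxy
  apply hf
  intro i hi
  unfold ovr
  by_cases hB : i ∈ B
  · rw [if_pos hB, if_pos hB]
  · rw [if_neg hB, if_neg hB]
    exact hxy i (by simp [hi, hB])

/-- the pigeonhole step with `Hg` exceptional bits -/
theorem rep_of_flip' {A : Set ℕ} {h s : ℕ} (hh : 2 ≤ h) (c : Fin s → ℤ)
    (g : Fin s → (I → Bool) → Bool) (F : (I → Bool) → ℕ) (hF : Weighted c g F)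
    (Hg : Finset (Fin s)) (hone : ∀ j, j ∉ Hg → One (g j)) (hA : ∀ x, F x ∈ A) :
    ∃ x, (∀ N, (∀ y, F y < N) → x < h * N) ∧
      (univ.image F).card ≤ 3 ^ Hg.card * (2 * rep A h x) := by
  classical
  -- representatives
  have hrep : ∀ v : ℕ, ∃ x : I → Bool, v ∈ univ.image F → F x = v := by
    intro v
    by_cases hv : v ∈ univ.image F
    · obtain ⟨x, -, hx⟩ := mem_image.1 hv
      exact ⟨x, fun _ => hx⟩
    · exact ⟨fun _ => false, fun h => absurd h hv⟩
  choose u hu using hrep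
  obtain ⟨bar, hbar⟩ : ∃ bar : (I → Bool) → (I → Bool), bar = fun x i => !x i := ⟨_, rfl⟩
  obtain ⟨pat, hpat⟩ : ∃ pat : ℕ → ({j // j ∈ Hg} → Fin 3),
      pat = fun v j => ⟨(g j.1 (u v)).toNat + (g j.1 (bar (u v))).toNat, by
        have h1 := Bool.toNat_le (g j.1 (u v))
        have h2 := Bool.toNat_le (g j.1 (bar (u v)))
        omega⟩ := ⟨_, rfl⟩
  have hsum : ∀ v v', pat v = pat v' → F (u v) + F (bar (u v)) = F (u v') + F (bar (u v')) := by
    intro v v' he
    have h1 : ((F (u v) + F (bar (u v)) : ℕ) : ℤ) = ((F (u v') + F (bar (u v')) : ℕ) : ℤ) := by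
      push_cast
      rw [hF, hF, hF, hF, ← Finset.sum_add_distrib, ← Finset.sum_add_distrib]
      refine Finset.sum_congr rfl fun j _ => ?_
      have h2 : (g j (u v)).toNat + (g j (bar (u v))).toNat =
          (g j (u v')).toNat + (g j (bar (u v'))).toNat := by
        by_cases hj : j ∈ Hg
        · have := congrArg Fin.val (congrFun he ⟨j, hj⟩)
          rw [hpat] at this
          exact this
        · have h3 := (hone j hj).flip (u v)
          have h4 := (hone j hj).flip (u v')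
          rw [hbar]
          exact h3.trans h4.symm
      have h3 : ((g j (u v)).toNat : ℤ) + ((g j (bar (u v))).toNat : ℤ) =
          ((g j (u v')).toNat : ℤ) + ((g j (bar (u v'))).toNat : ℤ) := by exact_mod_cast h2
      rw [← mul_add, h3, mul_add]
    exact_mod_cast h1
  obtain ⟨V, hV⟩ : ∃ V, V = univ.image F := ⟨_, rfl⟩
  obtain ⟨π, -, hπ⟩ : ∃ π ∈ (univ : Finset ({j // j ∈ Hg} → Fin 3)),
      (V.card : ℝ) / 3 ^ Hg.card ≤ (V.filter fun v => pat v = π).card := by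
    apply Finset.exists_le_card_fiber_of_nsmul_le_card_of_maps_to (fun p _ => mem_univ _)
      ⟨fun _ => 0, mem_univ _⟩
    rw [nsmul_eq_mul, card_univ, Fintype.card_fun, Fintype.card_fin, Fintype.card_coe]
    push_cast
    rw [mul_div_cancel₀ _ (by positivity)]
  obtain ⟨R, hR⟩ : ∃ R, R = V.filter fun v => pat v = π := ⟨_, rfl⟩
  rw [← hR] at hπ
  have hVpos : 0 < V.card := by
    rw [hV]
    exact card_pos.2 ⟨F fun _ => false, mem_image_of_mem _ (mem_univ _)⟩
  have hRpos : 0 < R.card := by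
    have h1 : (0 : ℝ) < (V.card : ℝ) / 3 ^ Hg.card := by
      have : (0 : ℝ) < V.card := by exact_mod_cast hVpos
      positivity
    have : (0 : ℝ) < R.card := lt_of_lt_of_le h1 hπ
    exact_mod_cast this
  obtain ⟨v0, hv0⟩ := card_pos.1 hRpos
  obtain ⟨κ, hκ⟩ : ∃ κ, κ = F (u v0) + F (bar (u v0)) := ⟨_, rfl⟩
  have hRm : ∀ v ∈ R, F (u v) = v ∧ F (u v) + F (bar (u v)) = κ := by
    intro v hv
    rw [hR, mem_filter] at hv hv0
    refine ⟨hu v (hV ▸ hv.1), ?_⟩
    rw [hκ]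
    exact hsum v v0 (hv.2.trans hv0.2.symm)
  refine ⟨κ + (h - 2) * F (u v0), ?_, ?_⟩
  · intro N hN
    have h1 := hN (u v0)
    have h2 := hN (bar (u v0))
    have h4 : (h - 2) * F (u v0) ≤ (h - 2) * N := Nat.mul_le_mul_left _ h1.le
    have h5 : h * N = 2 * N + (h - 2) * N := by
      rw [← add_mul]
      congr 1
      omega
    omega
  · have h1 : R.card ≤ 2 * rep A h (κ + (h - 2) * F (u v0)) := by
      have h2 : R.card = (R.image fun v => (F (u v), F (bar (u v)))).card := by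
        rw [card_image_of_injOn]
        intro p hp q hq hpq
        obtain ⟨h3, h4⟩ := Prod.mk.inj hpq
        rw [← (hRm p hp).1, ← (hRm q hq).1]
        exact h3
      rw [h2]
      apply rep_of_ordered hh _ κ _ (hA _)
      intro q hq
      obtain ⟨v, hv, rfl⟩ := mem_image.1 hq
      exact ⟨hA _, hA _, (hRm v hv).2⟩
    rw [div_le_iff₀ (by positivity)] at hπ
    have h3 : V.card ≤ R.card * 3 ^ Hg.card := by exact_mod_cast hπ
    rw [← hV]
    calc V.card ≤ R.card * 3 ^ Hg.card := h3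
      _ ≤ (2 * rep A h (κ + (h - 2) * F (u v0))) * 3 ^ Hg.card := Nat.mul_le_mul_right _ h1
      _ = _ := mul_comm _ _

open Classical in
/-- the restriction -/
theorem restrict {V : Type} [Fintype V] [DecidableEq V] {s : ℕ} {g : Fin s → (I → Bool) → Bool}
    {S : Fin s → ℕ} (hg : ∀ j, Cost (S j) (g j)) (F : (I → Bool) → V)
    {q : ℝ} (hq0 : 0 < q) (hq1 : q ≤ 1) :
    ∃ (φ : (I → Bool) → (I → Bool)) (Hg : Finset (Fin s)),
      (∀ j, j ∉ Hg → One (fun x => g j (φ x))) ∧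
      q * En F - Real.log 2 * (2 ^ 43 * q ^ 2 * (∑ j, (S j : ℝ))) + Hg.card * Real.log 3 ≤
        En (fun x => F (φ x)) := by
  have hl : 0 < Real.log 2 := Real.log_pos (by norm_num)
  obtain ⟨Hg, hHg⟩ : ∃ Hg : Finset (Fin s), Hg = univ.filter fun j => 1 < 2 ^ 36 * (S j : ℝ) * q ^ 2 :=
    ⟨_, rfl⟩
  have hmem : ∀ j, j ∉ Hg → 2 ^ 36 * (S j : ℝ) * q ^ 2 ≤ 1 := by
    intro j hj
    rw [hHg, mem_filter] at hj
    push Not at hj
    exact hj (mem_univ _)
  have h1 := En_restrict hq0.le hq1 F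
  have h2 : Ex (wq q) (fun ρ : Restr I => ∑ j ∈ Hgᶜ, (((rel (rs (g j) ρ)).card - 1 : ℕ) : ℝ)) ≤
      ∑ j ∈ Hgᶜ, 2 ^ 43 * (S j : ℝ) * q ^ 2 := by
    rw [Ex_sum]
    refine Finset.sum_le_sum fun j hj => ?_
    exact (hg j).small hq0 (hmem j (mem_compl.1 hj))
  obtain ⟨ρ, hρ⟩ := exists_ge (I := I) (wq_nonneg hq0.le hq1) (wq_sum q)
    (fun ρ : Restr I => En (fun x => F (ov ρ x)) +
      (- Real.log 2) * ∑ j ∈ Hgᶜ, (((rel (rs (g j) ρ)).card - 1 : ℕ) : ℝ))
  rw [Ex_add, Ex_smul] at hρ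
  have hB : ∀ j, ∃ B : Finset I, B ⊆ rel (rs (g j) ρ) ∧ B.card = (rel (rs (g j) ρ)).card - 1 :=
    fun j => Finset.exists_subset_card_eq (Nat.sub_le _ _)
  choose B hB1 hB2 using hB
  obtain ⟨D, hD⟩ : ∃ D : Finset I, D = Hgᶜ.biUnion B := ⟨_, rfl⟩
  have hDc : (D.card : ℝ) ≤ ∑ j ∈ Hgᶜ, (((rel (rs (g j) ρ)).card - 1 : ℕ) : ℝ) := by
    rw [hD, ← Nat.cast_sum]
    refine Nat.cast_le.2 (Finset.card_biUnion_le.trans (le_of_eq ?_))
    exact Finset.sum_congr rfl fun j _ => hB2 j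
  obtain ⟨σ, hσ⟩ := exists_fix D (fun x => F (ov ρ x))
  refine ⟨fun x => ov ρ (ovr D σ x), Hg, ?_, ?_⟩
  · intro j hj
    have h3 := dep_ovr (dep_rel (rs (g j) ρ)) D σ
    apply one_of_dep (f := fun x => rs (g j) ρ (ovr D σ x)) h3
    have h4 : B j ⊆ D := by
      rw [hD]
      exact Finset.subset_biUnion_of_mem B (mem_compl.2 hj)
    calc (rel (rs (g j) ρ) \ D).card ≤ (rel (rs (g j) ρ) \ B j).card :=
          card_le_card (sdiff_subset_sdiff (Finset.Subset.refl _) h4)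
      _ = (rel (rs (g j) ρ)).card - (B j).card := card_sdiff_of_subset (hB1 j)
      _ ≤ 1 := by rw [hB2 j]; omega
  · refine le_trans ?_ hσ
    have h5 : (D.card : ℝ) * Real.log 2 ≤
        (∑ j ∈ Hgᶜ, (((rel (rs (g j) ρ)).card - 1 : ℕ) : ℝ)) * Real.log 2 :=
      mul_le_mul_of_nonneg_right hDc hl.le
    have h6 := mul_le_mul_of_nonneg_left h2 hl.le
    have h7 : (∑ j, (S j : ℝ)) = ∑ j ∈ Hg, (S j : ℝ) + ∑ j ∈ Hgᶜ, (S j : ℝ) :=
      (Finset.sum_add_sum_compl Hg _).symm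
    have h8 : (Hg.card : ℝ) ≤ 2 ^ 36 * q ^ 2 * ∑ j ∈ Hg, (S j : ℝ) := by
      rw [Finset.card_eq_sum_ones, Nat.cast_sum, Finset.mul_sum]
      refine Finset.sum_le_sum fun j hj => ?_
      rw [hHg, mem_filter] at hj
      have := hj.2
      push_cast
      linarith
    have h9 : Real.log 3 ≤ 2 * Real.log 2 := by
      have : 2 * Real.log 2 = Real.log 4 := by
        rw [show (4 : ℝ) = 2 ^ 2 by norm_num, Real.log_pow]
        push_cast
        ring
      rw [this]
      exact Real.log_le_log (by norm_num) (by norm_num)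
    have h10 : (0 : ℝ) ≤ ∑ j ∈ Hg, (S j : ℝ) := Finset.sum_nonneg fun j _ => by positivity
    have h11 : (Hg.card : ℝ) * Real.log 3 ≤
        Real.log 2 * (2 ^ 43 * q ^ 2 * ∑ j ∈ Hg, (S j : ℝ)) := by
      calc (Hg.card : ℝ) * Real.log 3 ≤ (2 ^ 36 * q ^ 2 * ∑ j ∈ Hg, (S j : ℝ)) * (2 * Real.log 2) :=
            mul_le_mul h8 h9 (Real.log_nonneg (by norm_num)) (by positivity)
        _ = Real.log 2 * (2 ^ 37 * (q ^ 2 * ∑ j ∈ Hg, (S j : ℝ))) := by ring
        _ ≤ Real.log 2 * (2 ^ 43 * (q ^ 2 * ∑ j ∈ Hg, (S j : ℝ))) := by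
            apply mul_le_mul_of_nonneg_left _ hl.le
            apply mul_le_mul_of_nonneg_right (by norm_num)
            positivity
        _ = _ := by ring
    have h12 : ∑ j ∈ Hgᶜ, 2 ^ 43 * (S j : ℝ) * q ^ 2 = 2 ^ 43 * q ^ 2 * ∑ j ∈ Hgᶜ, (S j : ℝ) := by
      rw [Finset.mul_sum]
      exact Finset.sum_congr rfl fun j _ => by ring
    rw [h12] at h6
    rw [h7]
    linarith [h1, hρ, h5, h6, h11]

/-- **The general theorem.** -/
theorem cheap {m h : ℕ} (hh : 2 ≤ h) {A : Set ℕ} {F : (Fin m → Bool) → ℕ} {Λ : ℝ}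
    (hF : Cheap m Λ F) (hA : ∀ x, F x ∈ A) :
    ∃ x, (∀ N, (∀ y, F y < N) → x < h * N) ∧
      (2 : ℝ) ^ (entropy F ^ 2 / (2 ^ 45 * Λ)) ≤ 2 * rep A h x := by
  classical
  obtain ⟨s, c, g, S, hg, hΛ, hF⟩ := hF
  have hl : 0 < Real.log 2 := Real.log_pos (by norm_num)
  have hdet : ∀ x y, (∀ j, g j x = g j y) → cod F x = cod F y := by
    intro x y hxy
    refine Subtype.ext ?_
    show F x = F y
    have : (F x : ℤ) = F y := by
      rw [hF, hF]
      exact sum_congr rfl fun j _ => by rw [hxy j]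
    exact_mod_cast this
  have hb := En_le_bits g (cod F) hdet
  obtain ⟨E, hE⟩ : ∃ E, E = En (cod F) := ⟨_, rfl⟩
  have hE0 : 0 ≤ E := hE ▸ En_nonneg _
  have hH : entropy F = E / Real.log 2 := by
    rw [hE, En_cod, mul_div_cancel_right₀ _ hl.ne']
  have hsS : (s : ℝ) ≤ ∑ j, (S j : ℝ) := by
    calc (s : ℝ) = ∑ _j : Fin s, (1 : ℝ) := by simp
      _ ≤ _ := Finset.sum_le_sum fun j _ => by exact_mod_cast (hg j).pos
  rw [← hE] at hb
  rcases hE0.eq_or_lt with h0 | hpos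
  · refine ⟨h * F (fun _ => false), fun N hN => Nat.mul_lt_mul_of_pos_left (hN _) (by omega), ?_⟩
    have h1 := rep_one h _ (hA fun _ => false)
    have h2 : (1 : ℝ) ≤ rep A h (h * F fun _ => false) := by exact_mod_cast h1
    rw [hH, ← h0]
    simp
    linarith
  · have hs0 : 0 < (s : ℝ) := by
      by_contra hcon
      push Not at hcon
      have : (s : ℝ) * Real.log 2 ≤ 0 := mul_nonpos_of_nonpos_of_nonneg hcon hl.le
      linarith
    have hΛ0 : 0 < Λ := by linarith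
    obtain ⟨q, hq⟩ : ∃ q, q = E / (2 ^ 44 * Real.log 2 * Λ) := ⟨_, rfl⟩
    have hden : 0 < 2 ^ 44 * Real.log 2 * Λ := by positivity
    have hq0 : 0 < q := by rw [hq]; positivity
    have hq1 : q ≤ 1 := by
      rw [hq, div_le_one hden]
      have h1 : (s : ℝ) * Real.log 2 ≤ Λ * Real.log 2 :=
        mul_le_mul_of_nonneg_right (hsS.trans hΛ) hl.le
      have h2 : 0 < Λ * Real.log 2 := by positivity
      nlinarith
    obtain ⟨φ, Hg, hφ1, hφ2⟩ := restrict hg (cod F) hq0 hq1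
    rw [← hE] at hφ2
    obtain ⟨x, hx1, hx2⟩ := rep_of_flip' hh c (fun j x => g j (φ x)) (fun x => F (φ x))
      (fun x => hF (φ x)) Hg hφ1 (fun x => hA _)
    refine ⟨x, fun N hN => hx1 N fun y => hN _, ?_⟩
    have h1 : (univ.image fun x => cod F (φ x)).card = (univ.image fun x => F (φ x)).card := by
      have : (univ.image fun x => F (φ x)) = (univ.image fun x => cod F (φ x)).image Subtype.val := by
        rw [image_image]
        rfl
      rw [this, card_image_of_injective _ Subtype.val_injective]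
    have h2 := En_le (fun x => cod F (φ x))
    rw [h1] at h2
    have hpos' : (0 : ℝ) < ((univ.image fun x => F (φ x)).card : ℝ) := by
      have : 0 < (univ.image fun x => F (φ x)).card :=
        card_pos.2 ⟨F (φ fun _ => false), mem_image_of_mem (fun x => F (φ x)) (mem_univ _)⟩
      exact_mod_cast this
    have hx3 : ((univ.image fun x => F (φ x)).card : ℝ) ≤ 3 ^ Hg.card * (2 * rep A h x) := by
      exact_mod_cast hx2
    have hrpos : (0 : ℝ) < 2 * rep A h x := by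
      have h3 : (0 : ℝ) < 3 ^ Hg.card * (2 * rep A h x) := lt_of_lt_of_le hpos' hx3
      exact (mul_pos_iff_of_pos_left (by positivity)).1 h3
    have h3 : Real.log ((univ.image fun x => F (φ x)).card : ℝ) ≤
        Hg.card * Real.log 3 + Real.log (2 * rep A h x) := by
      refine (Real.log_le_log hpos' hx3).trans (le_of_eq ?_)
      rw [Real.log_mul (by positivity) hrpos.ne', Real.log_pow]
    have h4 : 2 ^ 43 * q ^ 2 * (∑ j, (S j : ℝ)) ≤ 2 ^ 43 * q ^ 2 * Λ :=
      mul_le_mul_of_nonneg_left hΛ (by positivity)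
    have h5 := mul_le_mul_of_nonneg_left h4 hl.le
    have h6 : q * E - Real.log 2 * (2 ^ 43 * q ^ 2 * Λ) =
        entropy F ^ 2 / (2 ^ 45 * Λ) * Real.log 2 := by
      rw [hH, hq]
      field_simp
      ring
    have h7 : entropy F ^ 2 / (2 ^ 45 * Λ) * Real.log 2 ≤ Real.log (2 * rep A h x) := by
      rw [← h6]
      linarith
    calc (2 : ℝ) ^ (entropy F ^ 2 / (2 ^ 45 * Λ)) =
          Real.exp (entropy F ^ 2 / (2 ^ 45 * Λ) * Real.log 2) := by
          rw [Real.rpow_def_of_pos (by norm_num), mul_comm]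
      _ ≤ Real.exp (Real.log (2 * rep A h x)) := Real.exp_le_exp.2 h7
      _ = 2 * rep A h x := Real.exp_log hrpos

end Pool.Agent.U33.FM
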